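import Pool.Agent.H378R2.QG.Defs

set_option autoImplicit false

/-! # Project PG (helper378): long strings of composite values of an irreducible polynomial -/

namespace Pool.Agent.H378R2.PG

open Finset Polynomial
open Pool.Agent.H378R2.QG (PZ Tc)

open Classical in
/-- the number of the roots of `f` modulo `p` -/
noncomputable def rho (f : ℤ[X]) (p : ℕ) : ℕ :=
  ((range p).filter (fun r : ℕ => (p : ℤ) ∣ f.eval (r : ℤ))).card

/-- lower bound of Mertens type for the number of the roots -/
def MertLow (ρ : ℕ → ℕ) : Prop := ∃ C : ℝ, 0 ≤ C ∧ ∃ y₀ : ℝ, ∀ y w : ℝ, y₀ ≤ y → y ≤ w →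
  -C ≤ Tc (fun p => (ρ p : ℝ) - 1) y w

end Pool.Agent.H378R2.PG
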