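import Pool.Agent.H378R2.PG.Defs
import Pool.Agent.H944R2.QG.QL

set_option autoImplicit false

/-! # Task B: lower bound of the sums over squarefree numbers, general weights
(adaptation of Pool.Agent.H944R2.QG.QL) -/

namespace Pool.Agent.H378R2.PG

open Finset
open Pool.Agent.H378R2.QG (PZ Tc)

lemma B_rankin (d C1 : ℝ) (hd : 1 ≤ d) (hC1 : ∀ N : ℕ, 1 ≤ N →
      |∑ p ∈ (Finset.Icc 1 N).filter Nat.Prime, Real.log p / p - Real.log N| ≤ C1)
    (y₁ w x : ℝ) (g : ℕ → ℝ) (hg0 : ∀ p, 0 ≤ g p) (hg : ∀ p ∈ PZ y₁ w, g p ≤ d / p) (hw : 3 ≤ w)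
    (hx0 : 0 < x) (hx : Real.log x = (2 * d * (1 + C1) + 1) * Real.log w) :
    ∏ p ∈ PZ y₁ w, (1 + g p) ≤
      2 * ∑ s ∈ (PZ y₁ w).powerset.filter (fun s : Finset ℕ => ∏ p ∈ s, (p : ℝ) ≤ x),
        ∏ p ∈ s, g p := by
  have hC10 : 0 ≤ C1 := (abs_nonneg _).trans (hC1 1 le_rfl)
  have hw0 : (0 : ℝ) ≤ w := by linarith
  have hlw : 1 ≤ Real.log w := by
    rw [Real.le_log_iff_exp_le (by linarith)]
    have := Real.exp_one_lt_d9
    linarith
  have hlw0 : 0 < Real.log w := by linarith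
  set A : ℝ := 2 * d * (1 + C1) + 1 with hA
  set P := PZ y₁ w with hP
  have hPp : ∀ p ∈ P, p.Prime ∧ y₁ < p ∧ (p : ℝ) ≤ w := fun p hp => (QG.QL.mem_PZ hw0).1 hp
  -- the expansion
  have e1 : ∏ p ∈ P, (1 + g p) = ∑ s ∈ P.powerset, ∏ p ∈ s, g p := Finset.prod_one_add (s := P)
  have e2 : ∏ p ∈ P, (1 + g p * Real.exp (Real.log p / Real.log w)) =
      ∑ s ∈ P.powerset, ∏ p ∈ s, (g p * Real.exp (Real.log p / Real.log w)) :=
    Finset.prod_one_add (s := P)
  have e3 : ∏ p ∈ P, (1 + g p) ≤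
      ∑ s ∈ P.powerset.filter (fun s : Finset ℕ => ∏ p ∈ s, (p : ℝ) ≤ x), ∏ p ∈ s, g p +
      Real.exp (-A) * ∏ p ∈ P, (1 + g p * Real.exp (Real.log p / Real.log w)) := by
    rw [e1, e2, Finset.sum_filter, Finset.mul_sum, ← Finset.sum_add_distrib]
    refine Finset.sum_le_sum fun s hs => ?_
    have hs' : s ⊆ P := Finset.mem_powerset.1 hs
    have hnn : 0 ≤ ∏ p ∈ s, g p := Finset.prod_nonneg fun p _ => hg0 p
    have hnn2 : 0 ≤ Real.exp (-A) * ∏ p ∈ s, (g p * Real.exp (Real.log p / Real.log w)) :=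
      mul_nonneg (Real.exp_pos _).le
        (Finset.prod_nonneg fun p _ => mul_nonneg (hg0 p) (Real.exp_pos _).le)
    split_ifs with hsx
    · linarith
    · push Not at hsx
      rw [zero_add, Finset.prod_mul_distrib, ← Real.exp_sum]
      have h1 : ∑ p ∈ s, Real.log p / Real.log w = Real.log (∏ p ∈ s, (p : ℝ)) / Real.log w := by
        rw [← Finset.sum_div, Real.log_prod]
        intro p hp
        have := (hPp p (hs' hp)).1.pos
        exact_mod_cast this.ne'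
      have h2 : A ≤ Real.log (∏ p ∈ s, (p : ℝ)) / Real.log w := by
        rw [le_div_iff₀ hlw0, ← hx]
        exact Real.log_le_log hx0 hsx.le
      have h3 : 1 ≤ Real.exp (-A) * Real.exp (∑ p ∈ s, Real.log p / Real.log w) := by
        rw [← Real.exp_add, h1]
        apply Real.one_le_exp
        linarith
      calc ∏ p ∈ s, g p = (∏ p ∈ s, g p) * 1 := by ring
        _ ≤ (∏ p ∈ s, g p) * (Real.exp (-A) * Real.exp (∑ p ∈ s, Real.log p / Real.log w)) :=
            mul_le_mul_of_nonneg_left h3 hnn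
        _ = _ := by ring
  have e4 : ∏ p ∈ P, (1 + g p * Real.exp (Real.log p / Real.log w)) ≤
      (∏ p ∈ P, (1 + g p)) * Real.exp (2 * d * (1 + C1)) := by
    have h1 : ∀ p ∈ P, 1 + g p * Real.exp (Real.log p / Real.log w) ≤
        (1 + g p) * Real.exp (2 * d / Real.log w * (Real.log p / p)) := by
      intro p hp
      obtain ⟨hpp, _, hpw⟩ := hPp p hp
      have hp0 : (0 : ℝ) < p := by exact_mod_cast hpp.pos
      have hp1 : (1 : ℝ) ≤ p := by exact_mod_cast hpp.one_le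
      have hlp : 0 ≤ Real.log p := Real.log_nonneg hp1
      have ht0 : 0 ≤ Real.log p / Real.log w := by positivity
      have ht1 : Real.log p / Real.log w ≤ 1 := by
        rw [div_le_one hlw0]
        exact Real.log_le_log hp0 hpw
      have h2 := QG.QL.exp_le_two ht0 ht1
      have hgp := hg0 p
      have hgp2 := hg p hp
      have h3 : g p * (2 * (Real.log p / Real.log w)) ≤ 2 * d / Real.log w * (Real.log p / p) := by
        calc g p * (2 * (Real.log p / Real.log w)) ≤ d / p * (2 * (Real.log p / Real.log w)) :=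
              mul_le_mul_of_nonneg_right hgp2 (by positivity)
          _ = _ := by field_simp
      have h4 : 2 * d / Real.log w * (Real.log p / p) + 1 ≤
          Real.exp (2 * d / Real.log w * (Real.log p / p)) := Real.add_one_le_exp _
      have h5 : 1 + g p * Real.exp (Real.log p / Real.log w) ≤
          1 + g p + g p * (2 * (Real.log p / Real.log w)) := by
        have := mul_le_mul_of_nonneg_left h2 hgp
        nlinarith
      have h6 : 0 ≤ 2 * d / Real.log w * (Real.log p / p) := by positivity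
      calc 1 + g p * Real.exp (Real.log p / Real.log w)
          ≤ 1 + g p + 2 * d / Real.log w * (Real.log p / p) := by linarith
        _ ≤ (1 + g p) * (2 * d / Real.log w * (Real.log p / p) + 1) := by nlinarith
        _ ≤ _ := mul_le_mul_of_nonneg_left h4 (by linarith)
    have h2 : ∏ p ∈ P, (1 + g p * Real.exp (Real.log p / Real.log w)) ≤
        ∏ p ∈ P, ((1 + g p) * Real.exp (2 * d / Real.log w * (Real.log p / p))) :=
      Finset.prod_le_prod (fun p _ => by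
        have := hg0 p
        have := Real.exp_pos (Real.log p / Real.log w)
        positivity) h1
    rw [Finset.prod_mul_distrib, ← Real.exp_sum, ← Finset.mul_sum] at h2
    refine h2.trans ?_
    refine mul_le_mul_of_nonneg_left ?_ (Finset.prod_nonneg fun p _ => by
      have := hg0 p
      linarith)
    apply Real.exp_le_exp.2
    have h3 : ∑ p ∈ P, Real.log p / p ≤
        ∑ p ∈ (Finset.Icc 1 ⌊w⌋₊).filter Nat.Prime, Real.log p / p := by
      refine Finset.sum_le_sum_of_subset_of_nonneg ?_ ?_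
      · intro p hp
        have h := hPp p hp
        rw [mem_filter, mem_Icc]
        exact ⟨⟨h.1.one_le, (Nat.le_floor_iff hw0).2 h.2.2⟩, h.1⟩
      · intro p _ _
        have : 0 ≤ Real.log p := Real.log_natCast_nonneg p
        positivity
    have h4 := hC1 ⌊w⌋₊ (Nat.le_floor (by push_cast; linarith))
    have h5 : Real.log (⌊w⌋₊ : ℝ) ≤ Real.log w := by
      apply Real.log_le_log
      · have : 1 ≤ ⌊w⌋₊ := Nat.le_floor (by push_cast; linarith)
        exact_mod_cast this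
      · exact Nat.floor_le hw0
    have h6 : ∑ p ∈ P, Real.log p / p ≤ Real.log w + C1 := by
      have := (abs_le.1 h4).2
      linarith
    calc 2 * d / Real.log w * ∑ p ∈ P, Real.log p / p ≤ 2 * d / Real.log w * (Real.log w + C1) :=
          mul_le_mul_of_nonneg_left h6 (by positivity)
      _ = 2 * d * (1 + C1 / Real.log w) := by field_simp
      _ ≤ 2 * d * (1 + C1) := by
          have h9 : C1 / Real.log w ≤ C1 := div_le_self hC10 hlw
          have h10 : (0 : ℝ) ≤ 2 * d := by linarith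
          exact mul_le_mul_of_nonneg_left (by linarith) h10
  -- conclusion
  set S := ∑ s ∈ P.powerset.filter (fun s : Finset ℕ => ∏ p ∈ s, (p : ℝ) ≤ x), ∏ p ∈ s, g p
    with hS
  have hprod : 0 ≤ ∏ p ∈ P, (1 + g p) := Finset.prod_nonneg fun p _ => by
    have := hg0 p
    linarith
  have e5 : Real.exp (-A) * Real.exp (2 * d * (1 + C1)) ≤ 1 / 2 := by
    rw [← Real.exp_add]
    have h1 : -A + 2 * d * (1 + C1) = -1 := by rw [hA]; ring
    rw [h1, Real.exp_neg, one_div]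
    apply inv_anti₀ (by norm_num)
    have := Real.exp_one_gt_d9
    linarith
  have e6 : Real.exp (-A) * ∏ p ∈ P, (1 + g p * Real.exp (Real.log p / Real.log w)) ≤
      1 / 2 * ∏ p ∈ P, (1 + g p) := by
    calc Real.exp (-A) * ∏ p ∈ P, (1 + g p * Real.exp (Real.log p / Real.log w))
        ≤ Real.exp (-A) * ((∏ p ∈ P, (1 + g p)) * Real.exp (2 * d * (1 + C1))) :=
          mul_le_mul_of_nonneg_left e4 (Real.exp_pos _).le
      _ = (Real.exp (-A) * Real.exp (2 * d * (1 + C1))) * ∏ p ∈ P, (1 + g p) := by ring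
      _ ≤ _ := mul_le_mul_of_nonneg_right e5 hprod
  linarith


open Classical in
theorem B_aux (d : ℝ) (hd : 1 ≤ d) : ∃ c₂ : ℝ, 0 < c₂ ∧ ∀ (y₁ z x C : ℝ) (ρ : ℕ → ℝ), 
    (∀ p, 0 ≤ ρ p ∧ ρ p ≤ d) →
    3 ≤ y₁ → y₁ ≤ x → x ≤ z → 0 ≤ C → (∀ w, y₁ ≤ w → w ≤ z → -C ≤ Tc (fun p => ρ p - 1) y₁ w) →
    c₂ * Real.exp (-C) * (Real.log x / Real.log y₁) - 1 ≤
      ∑ s ∈ ((PZ y₁ z).powerset.filter (fun s : Finset ℕ => s.Nonempty ∧ ∏ p ∈ s, (p : ℝ) ≤ x)),
        ∏ p ∈ s, (ρ p) / p := by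
  obtain ⟨C1, hC1⟩ := Pool.Agent.Helper256.KM.mertens_log
  obtain ⟨C2, hC2⟩ := Pool.Agent.Helper256.KM.mertens_inv
  have hC10 : 0 ≤ C1 := (abs_nonneg _).trans (hC1 1 le_rfl)
  have hC20 : 0 ≤ C2 := (abs_nonneg _).trans (hC2 3 le_rfl)
  have hsq : Summable (fun n : ℕ => 1 / (n : ℝ) ^ 2) :=
    Real.summable_one_div_nat_pow.2 (by norm_num)
  set K2 : ℝ := ∑' n : ℕ, 1 / (n : ℝ) ^ 2 with hK2
  have hK20 : 0 ≤ K2 := tsum_nonneg fun n => by positivity
  have hd0 : 0 < d := by linarith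
  have hd2 : 0 ≤ d ^ 2 / 2 := by positivity
  set A : ℝ := 2 * d * (1 + C1) + 1 with hA
  have hA1 : 1 ≤ A := by
    rw [hA]
    have : 0 ≤ 2 * d * (1 + C1) := by positivity
    linarith
  have hA0 : 0 < A := by linarith
  have hdK : 0 ≤ d ^ 2 / 2 * K2 := mul_nonneg hd2 hK20
  refine ⟨Real.exp (-(d ^ 2 / 2 * K2 + 2 * C2 + 2)) / (2 * A), by positivity, ?_⟩
  intro y₁ z x C ρ hρ hy hyx hxz hC hT
  have hx3 : 3 ≤ x := hy.trans hyx
  have hlx : 0 < Real.log x := Real.log_pos (by linarith)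
  have hly : 0 < Real.log y₁ := Real.log_pos (by linarith)
  have hg0 : ∀ p : ℕ, 0 ≤ (ρ p) / (p : ℝ) := by
    intro p
    exact div_nonneg (hρ p).1 (Nat.cast_nonneg p)
  have hc1 : Real.exp (-(d ^ 2 / 2 * K2 + 2 * C2 + 2)) ≤ 1 := by
    apply Real.exp_le_one_iff.2
    linarith
  have heC : Real.exp (-C) ≤ 1 := Real.exp_le_one_iff.2 (by linarith)
  have heC0 := Real.exp_pos (-C)
  set w : ℝ := Real.exp (Real.log x / A) with hw
  have hlw : Real.log w = Real.log x / A := by rw [hw, Real.log_exp]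
  have hrhs : 0 ≤ ∑ s ∈ ((PZ y₁ z).powerset.filter
      (fun s : Finset ℕ => s.Nonempty ∧ ∏ p ∈ s, (p : ℝ) ≤ x)), ∏ p ∈ s, (ρ p) / (p : ℝ) :=
    Finset.sum_nonneg fun s _ => Finset.prod_nonneg fun p _ => hg0 p
  by_cases hwy : w < y₁
  · -- small case
    have h1 : Real.log x / Real.log y₁ ≤ A := by
      rw [div_le_iff₀ hly]
      have h2 : Real.log w < Real.log y₁ := Real.log_lt_log (Real.exp_pos _) hwy
      rw [hlw, div_lt_iff₀ (by linarith)] at h2
      linarith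
    have h3 : Real.exp (-(d ^ 2 / 2 * K2 + 2 * C2 + 2)) / (2 * A) * Real.exp (-C) *
        (Real.log x / Real.log y₁) ≤ 1 := by
      calc Real.exp (-(d ^ 2 / 2 * K2 + 2 * C2 + 2)) / (2 * A) * Real.exp (-C) *
          (Real.log x / Real.log y₁) ≤ 1 / (2 * A) * 1 * A := by
            gcongr
        _ = 1 / 2 := by field_simp
        _ ≤ 1 := by norm_num
    linarith
  push Not at hwy
  have hw3 : 3 ≤ w := hy.trans hwy
  have hwx : w ≤ x := by
    rw [← Real.exp_log (show (0 : ℝ) < x by linarith), hw]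
    apply Real.exp_le_exp.2
    exact div_le_self hlx.le hA1
  have hwz : w ≤ z := hwx.trans hxz
  have hr := B_rankin d C1 hd hC1 y₁ w x (fun p => (ρ p) / (p : ℝ)) hg0 (by
    intro p hp
    show (ρ p) / (p : ℝ) ≤ d / p
    exact div_le_div_of_nonneg_right (hρ p).2 (Nat.cast_nonneg p)) hw3 (by linarith) (by
    rw [hlw, ← hA]
    field_simp)
  -- compare the two sums
  have h1 : ∑ s ∈ (PZ y₁ w).powerset.filter (fun s : Finset ℕ => ∏ p ∈ s, (p : ℝ) ≤ x),
        ∏ p ∈ s, (ρ p) / (p : ℝ) ≤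
      1 + ∑ s ∈ ((PZ y₁ z).powerset.filter
        (fun s : Finset ℕ => s.Nonempty ∧ ∏ p ∈ s, (p : ℝ) ≤ x)), ∏ p ∈ s, (ρ p) / (p : ℝ) := by
    have hsub : (PZ y₁ w).powerset.filter (fun s : Finset ℕ => ∏ p ∈ s, (p : ℝ) ≤ x) ⊆
        insert ∅ ((PZ y₁ z).powerset.filter
          (fun s : Finset ℕ => s.Nonempty ∧ ∏ p ∈ s, (p : ℝ) ≤ x)) := by
      intro s hs
      rw [mem_filter, mem_powerset] at hs
      rw [mem_insert, mem_filter, mem_powerset]
      rcases s.eq_empty_or_nonempty with h | h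
      · left; exact h
      · right
        refine ⟨fun p hp => ?_, h, hs.2⟩
        have h2 := (QG.QL.mem_PZ (by linarith)).1 (hs.1 hp)
        exact (QG.QL.mem_PZ (by linarith)).2 ⟨h2.1, h2.2.1, h2.2.2.trans hwz⟩
    refine (Finset.sum_le_sum_of_subset_of_nonneg hsub fun s _ _ =>
      Finset.prod_nonneg fun p _ => hg0 p).trans ?_
    rw [Finset.sum_insert (by simp)]
    simp
  -- lower bound of the product
  have h2 : Real.exp (-(d ^ 2 / 2 * K2 + 2 * C2 + 2)) * Real.exp (-C) * (Real.log x / Real.log y₁) / A ≤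
      ∏ p ∈ PZ y₁ w, (1 + (ρ p) / (p : ℝ)) := by
    have h3 : Real.exp (∑ p ∈ PZ y₁ w, ((ρ p) / (p : ℝ) - d ^ 2 / 2 * (1 / (p : ℝ) ^ 2))) ≤
        ∏ p ∈ PZ y₁ w, (1 + (ρ p) / (p : ℝ)) := by
      rw [Real.exp_sum]
      refine Finset.prod_le_prod (fun p _ => (Real.exp_pos _).le) fun p hp => ?_
      have hpp := ((QG.QL.mem_PZ (by linarith)).1 hp).1
      have hp0 : (0 : ℝ) < p := by exact_mod_cast hpp.pos
      have h0 := hg0 p
      have h2 : (ρ p) / (p : ℝ) ≤ d / p :=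
        div_le_div_of_nonneg_right (hρ p).2 hp0.le
      set t := (ρ p) / (p : ℝ) with ht
      have h4 := Real.le_log_one_add_of_nonneg h0
      have h5 : t - t ^ 2 / 2 ≤ 2 * t / (t + 2) := by
        rw [le_div_iff₀ (by linarith)]
        nlinarith [mul_nonneg h0 (sq_nonneg t)]
      have h6 : t ^ 2 / 2 ≤ d ^ 2 / 2 * (1 / (p : ℝ) ^ 2) := by
        have h7 : t ^ 2 ≤ d ^ 2 * (1 / (p : ℝ) ^ 2) := by
          calc t ^ 2 ≤ (d / (p : ℝ)) ^ 2 := pow_le_pow_left₀ h0 h2 2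
            _ = d ^ 2 * (1 / (p : ℝ) ^ 2) := by ring
        linarith
      rw [← Real.exp_log (show 0 < 1 + t by linarith)]
      apply Real.exp_le_exp.2
      linarith
    refine le_trans ?_ h3
    have h4 : ∑ p ∈ PZ y₁ w, 1 / (p : ℝ) ^ 2 ≤ K2 :=
      hsq.sum_le_tsum (PZ y₁ w) fun n _ => by positivity
    have h5 := QG.QL.sum_inv C2 hC2 y₁ w hy hwy
    have h6 := hT w hwy hwz
    have h7 : ∑ p ∈ PZ y₁ w, ((ρ p) / (p : ℝ) - d ^ 2 / 2 * (1 / (p : ℝ) ^ 2)) =
        ∑ p ∈ PZ y₁ w, (1 : ℝ) / p + Tc (fun p => ρ p - 1) y₁ w - d ^ 2 / 2 * ∑ p ∈ PZ y₁ w, 1 / (p : ℝ) ^ 2 := by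
      unfold Tc
      rw [Finset.sum_sub_distrib, Finset.mul_sum, ← Finset.sum_add_distrib]
      congr 1
      refine Finset.sum_congr rfl fun p _ => ?_
      ring
    rw [h7]
    have h8 : 0 < Real.log w / Real.log y₁ := by
      rw [hlw]
      positivity
    calc Real.exp (-(d ^ 2 / 2 * K2 + 2 * C2 + 2)) * Real.exp (-C) * (Real.log x / Real.log y₁) / A
        = Real.exp (-(d ^ 2 / 2 * K2 + 2 * C2 + 2)) * Real.exp (-C) *
          Real.exp (Real.log (Real.log w / Real.log y₁)) := by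
          rw [Real.exp_log h8, hlw]
          field_simp
      _ = Real.exp (-(d ^ 2 / 2 * K2 + 2 * C2 + 2) + -C + Real.log (Real.log w / Real.log y₁)) := by
          rw [Real.exp_add, Real.exp_add]
      _ ≤ _ := by
          apply Real.exp_le_exp.2
          have h10 := mul_le_mul_of_nonneg_left h4 hd2
          linarith
  have h9 : Real.exp (-(d ^ 2 / 2 * K2 + 2 * C2 + 2)) / (2 * A) * Real.exp (-C) *
      (Real.log x / Real.log y₁) =
      Real.exp (-(d ^ 2 / 2 * K2 + 2 * C2 + 2)) * Real.exp (-C) * (Real.log x / Real.log y₁) / A / 2 := by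
    field_simp
  rw [h9]
  have h10 := h2.trans hr
  linarith


open Classical in
theorem A_lower_gen (d : ℝ) (hd : 1 ≤ d) : ∃ c₂ : ℝ, 0 < c₂ ∧ ∀ (y₁ z x C : ℝ) (ρ : ℕ → ℝ),
    (∀ p ∈ PZ y₁ z, 0 ≤ ρ p ∧ ρ p ≤ d) →
    3 ≤ y₁ → y₁ ≤ x → x ≤ z → 0 ≤ C →
    (∀ w, y₁ ≤ w → w ≤ z → -C ≤ Tc (fun p => ρ p - 1) y₁ w) →
    c₂ * Real.exp (-C) * (Real.log x / Real.log y₁) - 1 ≤
      ∑ s ∈ ((PZ y₁ z).powerset.filter (fun s : Finset ℕ => s.Nonempty ∧ ∏ p ∈ s, (p : ℝ) ≤ x)),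
        ∏ p ∈ s, ρ p / p := by
  obtain ⟨c₂, hc₂, h⟩ := B_aux d hd
  refine ⟨c₂, hc₂, ?_⟩
  intro y₁ z x C ρ hρ hy hyx hxz hC hT
  have hz0 : 0 ≤ z := by linarith
  have h1 := h y₁ z x C (fun p => if p ∈ PZ y₁ z then ρ p else 1) (by
    intro p
    split_ifs with hp
    · exact hρ p hp
    · exact ⟨zero_le_one, hd⟩) hy hyx hxz hC (by
    intro w hyw hwz
    refine (hT w hyw hwz).trans (le_of_eq ?_)
    unfold Tc
    refine Finset.sum_congr rfl fun p hp => ?_
    have hw0 : 0 ≤ w := by linarith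
    have hp' : p ∈ PZ y₁ z := by
      have h2 := (QG.QL.mem_PZ hw0).1 hp
      exact (QG.QL.mem_PZ hz0).2 ⟨h2.1, h2.2.1, h2.2.2.trans hwz⟩
    dsimp only
    rw [if_pos hp'])
  refine h1.trans (le_of_eq ?_)
  refine Finset.sum_congr rfl fun s hs => ?_
  rw [mem_filter, mem_powerset] at hs
  refine Finset.prod_congr rfl fun p hp => ?_
  rw [if_pos (hs.1 hp)]

end Pool.Agent.H378R2.PG
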