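import Pool.Agent.H921R2.TatePole.Homs
import Pool.Agent.H921R2.TatePole.Radical
import Pool.Agent.H378R2.PG.Defs

set_option autoImplicit false

/-! # The number of roots of `f` modulo `p` and the degree one primes (project PG, helper378) -/

namespace Pool.Agent.H378R2.PG

open Polynomial NumberField
open Pool.Agent.H921R2.TatePole (R R_eq_hc hc exists_index extend_hom restrict_injective)

theorem eval_key (f : ℤ[X]) (p : ℕ) (n : ℤ) :
    ((f.eval n : ℤ) : ZMod p) = f.eval₂ (Int.castRingHom (ZMod p)) (n : ZMod p) := by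
  rw [← Polynomial.eval_map, Polynomial.eval_intCast_map]
  simp

theorem rho_eq (f : ℤ[X]) (p : ℕ) [Fact p.Prime] :
    rho f p = Nat.card {r : ZMod p // f.eval₂ (Int.castRingHom (ZMod p)) r = 0} := by
  classical
  rw [Nat.card_eq_fintype_card, Fintype.card_subtype]
  unfold rho
  have hp0 : 0 < p := (Fact.out : p.Prime).pos
  refine Finset.card_bij' (fun r _ => (r : ZMod p)) (fun x _ => x.val) ?_ ?_ ?_ ?_
  · intro r hr
    rw [Finset.mem_filter] at hr ⊢
    refine ⟨Finset.mem_univ _, ?_⟩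
    have h1 := (ZMod.intCast_zmod_eq_zero_iff_dvd (f.eval (r : ℤ)) p).2 hr.2
    rw [eval_key] at h1
    simpa using h1
  · intro x hx
    rw [Finset.mem_filter] at hx ⊢
    refine ⟨Finset.mem_range.2 (ZMod.val_lt x), ?_⟩
    rw [← ZMod.intCast_zmod_eq_zero_iff_dvd, eval_key]
    have h1 : (((x.val : ℕ) : ℤ) : ZMod p) = x := by
      rw [Int.cast_natCast, ZMod.natCast_zmod_val]
    rw [h1]
    exact hx.2
  · intro r hr
    rw [Finset.mem_filter, Finset.mem_range] at hr
    exact ZMod.val_cast_of_lt hr.1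
  · intro x hx
    exact ZMod.natCast_zmod_val x

/-- Gauss' lemma in the form needed -/
theorem dvd_of_map_dvd {f G : ℤ[X]} (hf : f.IsPrimitive)
    (h : f.map (Int.castRingHom ℚ) ∣ G.map (Int.castRingHom ℚ)) : f ∣ G :=
  (Polynomial.IsPrimitive.Int.dvd_iff_map_cast_dvd_map_cast f G hf).2 h

theorem rho_eq_R (f : ℤ[X]) (hf : Irreducible f) (hd : 1 ≤ f.natDegree) :
    ∃ (K : Type) (_ : Field K) (_ : NumberField K) (N₀ : ℕ),
      ∀ p : Nat.Primes, N₀ ≤ (p : ℕ) → rho f (p : ℕ) = R K p := by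
  have hprim : f.IsPrimitive := hf.isPrimitive (by omega)
  have hirr : Irreducible (f.map (Int.castRingHom ℚ)) :=
    (Polynomial.IsPrimitive.Int.irreducible_iff_irreducible_map_cast hprim).1 hf
  have : Fact (Irreducible (f.map (Int.castRingHom ℚ))) := ⟨hirr⟩
  set fQ : ℚ[X] := f.map (Int.castRingHom ℚ) with hfQ
  let K := AdjoinRoot fQ
  let α : K := AdjoinRoot.root fQ
  have ha0 : f.leadingCoeff ≠ 0 := Polynomial.leadingCoeff_ne_zero.2 hf.ne_zero
  set a : ℤ := f.leadingCoeff with ha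
  have haeval : ∀ G : ℤ[X], aeval α G = AdjoinRoot.mk fQ (G.map (Int.castRingHom ℚ)) := by
    intro G
    rw [← AdjoinRoot.aeval_eq]
    have := Polynomial.aeval_map_algebraMap ℚ α G
    rw [← this]
    rfl
  have hαf : aeval α f = 0 := by
    rw [haeval, ← hfQ]
    exact AdjoinRoot.mk_self
  have hint : IsIntegral ℤ ((a : K) * α) := by
    have h1 := isIntegral_leadingCoeff_smul f α hαf
    rwa [← ha, zsmul_eq_mul] at h1
  let θ : 𝓞 K := ⟨(a : K) * α, hint⟩
  have hθ : (θ : K) = (a : K) * α := rfl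
  have haK : (a : K) ≠ 0 := by exact_mod_cast ha0
  have hadj : Algebra.adjoin ℚ {(θ : K)} = ⊤ := by
    rw [eq_top_iff]
    refine le_trans (le_of_eq (AdjoinRoot.adjoinRoot_eq_top (f := fQ)).symm) ?_
    apply Algebra.adjoin_le
    rintro x hx
    rw [Set.mem_singleton_iff] at hx
    rw [hx]
    have h1 : α = ((a : ℚ)⁻¹) • (θ : K) := by
      rw [hθ, Algebra.smul_def, map_inv₀, map_intCast, inv_mul_cancel_left₀ haK]
    have h2 : α ∈ Algebra.adjoin ℚ {(θ : K)} := by
      rw [h1]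
      exact Subalgebra.smul_mem _ (Algebra.subset_adjoin (Set.mem_singleton _)) _
    exact h2
  obtain ⟨N, hN0, hN⟩ := exists_index hadj
  have hθ0 : aeval θ (scaleRoots f a) = 0 := by
    have h1 := scaleRoots_aeval_eq_zero (A := K) (r := a) hαf
    have h2 : (algebraMap ℤ K a) * α = (θ : K) := by rw [hθ]; simp
    rw [h2] at h1
    have h3 : ((aeval θ (scaleRoots f a) : 𝓞 K) : K) = aeval (θ : K) (scaleRoots f a) :=
      (Polynomial.aeval_algebraMap_apply K θ (scaleRoots f a)).symm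
    apply RingOfIntegers.ext
    rw [h3, h1]
    simp
  refine ⟨K, inferInstance, inferInstance, (N.natAbs + a.natAbs) + 1, ?_⟩
  rintro ⟨p, hpp⟩ hp
  change N.natAbs + a.natAbs + 1 ≤ p at hp
  change rho f p = R K ⟨p, hpp⟩
  have : Fact p.Prime := ⟨hpp⟩
  have hpN : ¬ (p : ℤ) ∣ N := by
    intro h
    have h1 := Nat.le_of_dvd (Int.natAbs_pos.2 hN0) (Int.natCast_dvd.1 h)
    omega
  have hpa : ¬ (p : ℤ) ∣ a := by
    intro h
    have h1 := Nat.le_of_dvd (Int.natAbs_pos.2 ha0) (Int.natCast_dvd.1 h)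
    omega
  have hNp : ((N : ℤ) : ZMod p) ≠ 0 := by
    rwa [Ne, ZMod.intCast_zmod_eq_zero_iff_dvd]
  have hap : ((a : ℤ) : ZMod p) ≠ 0 := by
    rwa [Ne, ZMod.intCast_zmod_eq_zero_iff_dvd]
  have hev : ∀ (φ : 𝓞 K →+* ZMod p) (A : ℤ[X]), φ (aeval θ A) =
      A.eval₂ (Int.castRingHom (ZMod p)) (φ θ) := by
    intro φ A
    rw [Polynomial.aeval_def, Polynomial.hom_eval₂]
    congr 1
    exact RingHom.ext_int _ _
  have hroot : ∀ φ : 𝓞 K →+* ZMod p,
      f.eval₂ (Int.castRingHom (ZMod p)) (((a : ℤ) : ZMod p)⁻¹ * φ θ) = 0 := by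
    intro φ
    have h1 := hev φ (scaleRoots f a)
    rw [hθ0, map_zero] at h1
    have h2 := Polynomial.scaleRoots_eval₂_mul (p := f) (Int.castRingHom (ZMod p))
      (((a : ℤ) : ZMod p)⁻¹ * φ θ) a
    have h3 : (Int.castRingHom (ZMod p)) a * (((a : ℤ) : ZMod p)⁻¹ * φ θ) = φ θ := by
      rw [eq_intCast, mul_inv_cancel_left₀ hap]
    rw [h3, ← h1, eq_intCast] at h2
    exact (mul_eq_zero.1 h2.symm).resolve_left (pow_ne_zero _ hap)
  refine Eq.trans ?_ (R_eq_hc (K := K) (⟨p, hpp⟩ : Nat.Primes)).symm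
  change rho f p = Nat.card (𝓞 K →+* ZMod p)
  rw [rho_eq]
  symm
  refine Nat.card_congr (Equiv.ofBijective (fun φ => ⟨_, hroot φ⟩) ⟨?_, ?_⟩)
  · intro φ ψ h
    have h1 := congrArg Subtype.val h
    simp only at h1
    have h2 : φ θ = ψ θ := mul_left_cancel₀ (inv_ne_zero hap) h1
    ext x
    obtain ⟨A, hA⟩ := hN x
    have e1 := congrArg φ hA
    have e2 := congrArg ψ hA
    rw [hev, map_mul, map_intCast] at e1 e2
    rw [h2, ← e2] at e1
    exact mul_left_cancel₀ hNp e1
  · rintro ⟨r, hr⟩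
    obtain ⟨ψ, hψ⟩ := extend_hom (A := ℤ[X]) (B := 𝓞 K) ((aeval θ : ℤ[X] →ₐ[ℤ] 𝓞 K) : ℤ[X] →+* 𝓞 K)
      (N := N) (fun b => by
        obtain ⟨A, hA⟩ := hN b
        exact ⟨A, hA.symm⟩) hpN
      (Polynomial.eval₂RingHom (Int.castRingHom (ZMod p)) (((a : ℤ) : ZMod p) * r)) (by
        intro A hA
        rw [RingHom.mem_ker] at hA ⊢
        have h1 : aeval (θ : K) A = 0 := by
          have h3 : ((aeval θ A : 𝓞 K) : K) = aeval (θ : K) A :=
            (Polynomial.aeval_algebraMap_apply K θ A).symm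
          rw [← h3]
          have h4 : aeval θ A = 0 := hA
          rw [h4]
          simp
        have h2 : aeval α (A.comp (C a * X)) = 0 := by
          rw [Polynomial.aeval_comp]
          have h5 : aeval α (C a * X : ℤ[X]) = (θ : K) := by
            rw [hθ]; simp
          rw [h5, h1]
        rw [haeval, AdjoinRoot.mk_eq_zero] at h2
        obtain ⟨G, hG⟩ := dvd_of_map_dvd hprim h2
        have h6 := congrArg (Polynomial.eval₂ (Int.castRingHom (ZMod p)) r) hG
        have h8 : Polynomial.eval₂ (Int.castRingHom (ZMod p)) r (f * G) = 0 := by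
          rw [Polynomial.eval₂_mul, hr, zero_mul]
        have h7 : Polynomial.eval₂ (Int.castRingHom (ZMod p)) r (C a * X : ℤ[X]) =
            ((a : ℤ) : ZMod p) * r := by
          rw [Polynomial.eval₂_mul, Polynomial.eval₂_C, Polynomial.eval₂_X, eq_intCast]
        rw [Polynomial.eval₂_comp, h7, h8] at h6
        exact h6)
    refine ⟨ψ, ?_⟩
    apply Subtype.ext
    simp only
    have h1 := RingHom.congr_fun hψ X
    simp only [RingHom.comp_apply, RingHom.coe_coe, aeval_X, coe_eval₂RingHom, eval₂_X] at h1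
    rw [h1, inv_mul_cancel_left₀ hap]

end Pool.Agent.H378R2.PG
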