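import Pool.Agent.H378R2.PG.Ea
import Pool.Agent.H378R2.PG.Eb

set_option autoImplicit false

/-! # Task E: Mertens' lower bound for the number of the roots (project PG, helper378) -/

namespace Pool.Agent.H378R2.PG

open Finset Polynomial
open Pool.Agent.H921R2.TatePole (R sum_R_bdd R_le)
open Pool.Agent.H378R2.QG (PZ Tc)

theorem mertens_rho (f : ℤ[X]) (hf : Irreducible f) (hd : 1 ≤ f.natDegree) :
    MertLow (rho f) := by
  classical
  obtain ⟨K, _, _, N₀, hK⟩ := rho_eq_R f hf hd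
  have ha : ∀ p : Nat.Primes, |(R K p : ℝ) - 1| ≤ Module.finrank ℚ K + 1 := by
    intro p
    have h1 : (R K p : ℝ) ≤ Module.finrank ℚ K := by exact_mod_cast R_le p
    have h2 : (0 : ℝ) ≤ R K p := Nat.cast_nonneg _
    rw [abs_le]
    constructor <;> linarith
  obtain ⟨C, hC0, N₁, hC⟩ := diff_bdd ha sum_R_bdd
  refine ⟨C, hC0, ((max N₀ N₁ : ℕ) : ℝ) + 1, fun y w hy hyw => ?_⟩
  have hN : max N₀ N₁ ≤ ⌊y⌋₊ := Nat.le_floor (by linarith)
  have hy0 : 0 ≤ y := le_trans (by positivity) hy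
  have hfl : ⌊y⌋₊ ≤ ⌊w⌋₊ := Nat.floor_le_floor hyw
  have h1 := hC ⌊y⌋₊ ⌊w⌋₊ ((le_max_right _ _).trans hN) hfl
  have h2 : Tc (fun p => (rho f p : ℝ) - 1) y w =
      ∑ p ∈ SP ⌊w⌋₊ \ SP ⌊y⌋₊, ((R K p : ℝ) - 1) / ((p : ℕ) : ℝ) := by
    unfold Tc
    symm
    refine Finset.sum_bij (fun p _ => (p : ℕ)) ?_ ?_ ?_ ?_
    · intro p hp
      rw [Finset.mem_sdiff, mem_SP, mem_SP] at hp
      unfold PZ
      rw [Finset.mem_filter, Finset.mem_Icc]
      refine ⟨⟨p.2.one_lt.le, hp.1⟩, p.2, ?_⟩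
      exact (Nat.floor_lt hy0).1 (by omega)
    · intro p _ q _ h
      exact Subtype.ext h
    · intro p hp
      unfold PZ at hp
      rw [Finset.mem_filter, Finset.mem_Icc] at hp
      refine ⟨⟨p, hp.2.1⟩, ?_, rfl⟩
      rw [Finset.mem_sdiff, mem_SP, mem_SP]
      refine ⟨hp.1.2, ?_⟩
      have h3 := (Nat.floor_lt hy0).2 hp.2.2
      show ¬ p ≤ ⌊y⌋₊
      omega
    · intro p hp
      rw [Finset.mem_sdiff, mem_SP, mem_SP] at hp
      have h3 : N₀ ≤ (p : ℕ) := by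
        have := le_max_left N₀ N₁
        omega
      have h4 : (R K p : ℝ) = (rho f (p : ℕ) : ℝ) := by exact_mod_cast (hK p h3).symm
      show ((R K p : ℝ) - 1) / ((p : ℕ) : ℝ) = ((rho f (p : ℕ) : ℝ) - 1) / ((p : ℕ) : ℝ)
      rw [h4]
  rw [h2]
  exact (abs_le.1 h1).1

end Pool.Agent.H378R2.PG
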