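import Pool.Agent.H921R2.TatePole.BaseChange
import Pool.Agent.Helper256.KM.Mertens

set_option autoImplicit false

/-! # From the behaviour at `s → 1+` to bounded partial sums over primes (project PG, helper378) -/

namespace Pool.Agent.H378R2.PG

open Filter Topology Finset
open Pool.Agent.H921R2.TatePole (Bdd w W Lam W_sub_Lam_bdd w_summable bddmul_summable)

/-- the primes up to `N` -/
noncomputable def SP (N : ℕ) : Finset Nat.Primes := Finset.subtype Nat.Prime (Finset.Icc 1 N)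

theorem sum_SP (N : ℕ) (f : ℕ → ℝ) :
    ∑ p ∈ SP N, f (p : ℕ) = ∑ p ∈ (Finset.Icc 1 N).filter Nat.Prime, f p := by
  unfold SP
  exact Finset.sum_subtype_eq_sum_filter (s := Finset.Icc 1 N) f

theorem mem_SP {N : ℕ} {p : Nat.Primes} : p ∈ SP N ↔ (p : ℕ) ≤ N := by
  have h := @Finset.mem_subtype ℕ Nat.Prime _ (Finset.Icc 1 N) p
  refine h.trans ?_
  rw [Finset.mem_Icc]
  exact ⟨fun h => h.2, fun h => ⟨p.2.one_lt.le, h⟩⟩

theorem partial_bdd {a : Nat.Primes → ℝ} {D : ℝ} (ha : ∀ p, |a p| ≤ D)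
    (h : Bdd (fun x => ∑' p : Nat.Primes, a p * w x p)) :
    ∃ C : ℝ, ∃ N₀ : ℕ, ∀ N : ℕ, N₀ ≤ N → |∑ p ∈ SP N, a p / ((p : ℕ) : ℝ)| ≤ C := by
  obtain ⟨C₁, h1⟩ := h
  obtain ⟨C₂, h2⟩ := W_sub_Lam_bdd
  obtain ⟨C₃, h3⟩ := Pool.Agent.Helper256.KM.mertens_inv
  obtain ⟨C₄, h4⟩ := Pool.Agent.Helper256.KM.mertens_log
  have hD0 : 0 ≤ D := (abs_nonneg _).trans (ha ⟨2, Nat.prime_two⟩)
  have hC4 : 0 ≤ C₄ := (abs_nonneg _).trans (h4 1 le_rfl)
  -- `x = 1 + 1 / log N`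
  have hlim : Tendsto (fun N : ℕ => 1 + 1 / Real.log (N : ℝ)) atTop (𝓝[>] 1) := by
    rw [tendsto_nhdsWithin_iff]
    have hl : Tendsto (fun N : ℕ => Real.log (N : ℝ)) atTop atTop :=
      Real.tendsto_log_atTop.comp tendsto_natCast_atTop_atTop
    constructor
    · have := (tendsto_const_nhds (x := (1 : ℝ))).add (tendsto_inv_atTop_zero.comp hl)
      simp only [add_zero] at this
      refine this.congr fun N => ?_
      simp [Function.comp]
    · filter_upwards [eventually_ge_atTop 3] with N hN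
      have : 0 < Real.log (N : ℝ) := Real.log_pos (by exact_mod_cast (by omega : 1 < N))
      show 1 < 1 + 1 / Real.log (N : ℝ)
      have := one_div_pos.mpr this
      linarith
  have hev := (hlim.eventually h1).and ((hlim.eventually h2).and (eventually_ge_atTop 3))
  obtain ⟨N₀, hN₀⟩ := eventually_atTop.1 hev
  refine ⟨C₁ + D * (C₂ + C₃) + 2 * D * (1 + C₄), N₀, fun N hN => ?_⟩
  obtain ⟨g1, g2, hN3⟩ := hN₀ N hN
  have hN1 : (1 : ℝ) < N := by exact_mod_cast (by omega : 1 < N)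
  have hlogN : 1 ≤ Real.log (N : ℝ) := by
    rw [Real.le_log_iff_exp_le (by linarith)]
    have : (3 : ℝ) ≤ N := by exact_mod_cast hN3
    have := Real.exp_one_lt_d9
    linarith
  have hlog0 : 0 < Real.log (N : ℝ) := by linarith
  obtain ⟨x, hx⟩ : ∃ x : ℝ, x = 1 + 1 / Real.log (N : ℝ) := ⟨_, rfl⟩
  rw [← hx] at g1 g2
  replace g1 : |∑' p : Nat.Primes, a p * w x p| ≤ C₁ := g1
  replace g2 : |W x - Lam x| ≤ C₂ := g2
  have hx1 : 1 < x := by rw [hx]; have := one_div_pos.mpr hlog0; linarith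
  have hLam : Lam x = Real.log (Real.log (N : ℝ)) := by
    unfold Lam
    rw [hx]
    congr 1
    rw [add_sub_cancel_left, one_div_one_div]
  -- the weights
  have hw0 : ∀ p : Nat.Primes, 0 ≤ w x p := fun p => by unfold w; positivity
  have hw1 : ∀ p : Nat.Primes, w x p ≤ 1 / ((p : ℕ) : ℝ) := fun p => by
    unfold w
    have hp1 : (1 : ℝ) ≤ ((p : ℕ) : ℝ) := by exact_mod_cast p.2.one_lt.le
    calc ((p : ℕ) : ℝ) ^ (-x) ≤ ((p : ℕ) : ℝ) ^ (-1 : ℝ) :=
          Real.rpow_le_rpow_of_exponent_le hp1 (by linarith)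
      _ = 1 / ((p : ℕ) : ℝ) := by rw [Real.rpow_neg_one, one_div]
  have hw2 : ∀ p : Nat.Primes, 1 / ((p : ℕ) : ℝ) - w x p ≤
      (Real.log (p : ℕ) / ((p : ℕ) : ℝ)) / Real.log N := fun p => by
    have hp0 : (0 : ℝ) < ((p : ℕ) : ℝ) := by exact_mod_cast p.2.pos
    have e1 : w x p = 1 / ((p : ℕ) : ℝ) * Real.exp (-(Real.log (p : ℕ) / Real.log N)) := by
      unfold w
      rw [hx, neg_add, Real.rpow_add hp0, Real.rpow_neg_one]
      congr 1
      · exact (one_div _).symm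
      · rw [Real.rpow_def_of_pos hp0]
        congr 1
        ring
    rw [e1]
    have e2 := Real.add_one_le_exp (-(Real.log (p : ℕ) / Real.log N))
    have e3 : 1 / ((p : ℕ) : ℝ) * (-(Real.log (p : ℕ) / Real.log N) + 1) ≤
        1 / ((p : ℕ) : ℝ) * Real.exp (-(Real.log (p : ℕ) / Real.log N)) :=
      mul_le_mul_of_nonneg_left e2 (by positivity)
    have e4 : (Real.log (p : ℕ) / ((p : ℕ) : ℝ)) / Real.log N =
        1 / ((p : ℕ) : ℝ) - 1 / ((p : ℕ) : ℝ) * (-(Real.log (p : ℕ) / Real.log N) + 1) := by ring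
    rw [e4]
    linarith
  have hdiff : ∑ p ∈ SP N, (1 / ((p : ℕ) : ℝ) - w x p) ≤ 1 + C₄ := by
    refine (Finset.sum_le_sum fun p _ => hw2 p).trans ?_
    rw [← Finset.sum_div, sum_SP N (fun n => Real.log n / (n : ℝ))]
    have := (abs_le.1 (h4 N (by omega))).2
    rw [div_le_iff₀ hlog0]
    have : C₄ ≤ C₄ * Real.log N := le_mul_of_one_le_right hC4 hlogN
    linarith
  have hdiff0 : 0 ≤ ∑ p ∈ SP N, (1 / ((p : ℕ) : ℝ) - w x p) :=
    Finset.sum_nonneg fun p _ => sub_nonneg.2 (hw1 p)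
  -- the tail
  have hws := w_summable hx1
  have has : Summable (fun p : Nat.Primes => a p * w x p) := bddmul_summable hx1 ha
  have hWsplit : ∑ p ∈ SP N, w x p + ∑' p : {p // p ∉ SP N}, w x p = W x :=
    hws.sum_add_tsum_subtype_compl (SP N)
  have hasplit : ∑ p ∈ SP N, a p * w x p + ∑' p : {p // p ∉ SP N}, a p * w x p =
      ∑' p, a p * w x p := has.sum_add_tsum_subtype_compl (SP N)
  have hwts : Summable (fun p : {p // p ∉ SP N} => w x p) := hws.subtype _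
  have htail : |∑' p : {p // p ∉ SP N}, a p * w x p| ≤ D * ∑' p : {p // p ∉ SP N}, w x p := by
    have := tsum_of_norm_bounded (f := fun p : {p // p ∉ SP N} => a p * w x p)
      (hwts.mul_left D).hasSum (fun p => by
        rw [Real.norm_eq_abs, abs_mul, abs_of_nonneg (hw0 p)]
        exact mul_le_mul_of_nonneg_right (ha p) (hw0 p))
    rwa [Real.norm_eq_abs, tsum_mul_left] at this
  have hinv : Real.log (Real.log N) - C₃ ≤ ∑ p ∈ SP N, 1 / ((p : ℕ) : ℝ) := by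
    rw [sum_SP N (fun n => 1 / (n : ℝ))]
    have := (abs_le.1 (h3 N hN3)).1
    linarith
  have hW : W x ≤ Real.log (Real.log N) + C₂ := by
    rw [hLam] at g2
    linarith [(abs_le.1 g2).2]
  have hsplit2 : ∑ p ∈ SP N, (1 / ((p : ℕ) : ℝ) - w x p) =
      ∑ p ∈ SP N, 1 / ((p : ℕ) : ℝ) - ∑ p ∈ SP N, w x p := Finset.sum_sub_distrib _ _
  have htailW : ∑' p : {p // p ∉ SP N}, w x p ≤ C₂ + C₃ + (1 + C₄) := by linarith
  -- the main estimate
  have hmain : |∑ p ∈ SP N, a p / ((p : ℕ) : ℝ) - ∑ p ∈ SP N, a p * w x p| ≤ D * (1 + C₄) := by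
    rw [← Finset.sum_sub_distrib]
    refine (Finset.abs_sum_le_sum_abs _ _).trans ?_
    calc ∑ p ∈ SP N, |a p / ((p : ℕ) : ℝ) - a p * w x p|
        ≤ ∑ p ∈ SP N, D * (1 / ((p : ℕ) : ℝ) - w x p) := by
          refine Finset.sum_le_sum fun p _ => ?_
          have e : a p / ((p : ℕ) : ℝ) - a p * w x p = a p * (1 / ((p : ℕ) : ℝ) - w x p) := by ring
          rw [e, abs_mul, abs_of_nonneg (sub_nonneg.2 (hw1 p))]
          exact mul_le_mul_of_nonneg_right (ha p) (sub_nonneg.2 (hw1 p))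
      _ = D * ∑ p ∈ SP N, (1 / ((p : ℕ) : ℝ) - w x p) := by rw [Finset.mul_sum]
      _ ≤ D * (1 + C₄) := mul_le_mul_of_nonneg_left hdiff hD0
  have h5 : D * ∑' p : {p // p ∉ SP N}, w x p ≤ D * (C₂ + C₃ + (1 + C₄)) :=
    mul_le_mul_of_nonneg_left htailW hD0
  have h6 := abs_le.1 hmain
  have h7 := abs_le.1 htail
  have h8 := abs_le.1 g1
  rw [abs_le]
  constructor <;> nlinarith

/-- the two-sided bound for differences -/
theorem diff_bdd {a : Nat.Primes → ℝ} {D : ℝ} (ha : ∀ p, |a p| ≤ D)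
    (h : Bdd (fun x => ∑' p : Nat.Primes, a p * w x p)) :
    ∃ C : ℝ, 0 ≤ C ∧ ∃ N₀ : ℕ, ∀ N M : ℕ, N₀ ≤ N → N ≤ M →
      |∑ p ∈ SP M \ SP N, a p / ((p : ℕ) : ℝ)| ≤ C := by
  obtain ⟨C, N₀, hC⟩ := partial_bdd ha h
  have hC0 : 0 ≤ C := (abs_nonneg _).trans (hC N₀ le_rfl)
  refine ⟨2 * C, by positivity, N₀, fun N M h1 h2 => ?_⟩
  have hsub : SP N ⊆ SP M := fun p hp => by
    rw [mem_SP] at hp ⊢
    exact hp.trans h2
  have h3 := Finset.sum_sdiff (f := fun p : Nat.Primes => a p / ((p : ℕ) : ℝ)) hsub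
  have h4 := abs_le.1 (hC N h1)
  have h5 := abs_le.1 (hC M (h1.trans h2))
  rw [abs_le]
  constructor <;> linarith

end Pool.Agent.H378R2.PG
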