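import Pool.Agent.H378R2.PG.Defs
import Pool.Agent.H256R2.SC.G1
import Pool.Agent.Helper256.KM.Mertens

set_option autoImplicit false

/-! # Task F: the choice of the residue class modulo the small primes (project PG, helper378) -/

namespace Pool.Agent.H378R2.PG

open Finset Polynomial Filter
open Pool.Agent.H378R2.QG (PZ Tc)
open Pool.Agent.H256R2.SC.LG (exists_crt)

open scoped Classical

theorem periodic_root (f : ℤ[X]) (p : ℕ) :
    Function.Periodic (fun x : ℕ => (p : ℤ) ∣ f.eval (x : ℤ)) p := by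
  intro x
  simp only [eq_iff_iff]
  have h1 : (p : ℤ) ∣ f.eval (((x + p : ℕ) : ℤ)) - f.eval (x : ℤ) := by
    have h := Polynomial.sub_dvd_eval_sub (((x + p : ℕ) : ℤ)) (x : ℤ) f
    have e : (((x + p : ℕ) : ℤ)) - (x : ℤ) = p := by push_cast; ring
    rwa [e] at h
  exact (dvd_iff_dvd_of_dvd_sub h1)

theorem card_shift (f : ℤ[X]) (p j : ℕ) :
    ((range p).filter (fun c : ℕ => (p : ℤ) ∣ f.eval (((c + j : ℕ) : ℤ)))).card = rho f p := by
  have h1 := Nat.filter_Ico_card_eq_of_periodic j p (fun x : ℕ => (p : ℤ) ∣ f.eval (x : ℤ))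
    (periodic_root f p)
  have h2 : rho f p = p.count (fun x : ℕ => (p : ℤ) ∣ f.eval (x : ℤ)) := by
    unfold rho
    rw [Nat.count_eq_card_filter_range]
  rw [h2, ← h1]
  refine Finset.card_bij (fun c _ => c + j) ?_ ?_ ?_
  · intro c hc
    rw [Finset.mem_filter, Finset.mem_range] at hc
    rw [Finset.mem_filter, Finset.mem_Ico]
    exact ⟨⟨by omega, by omega⟩, hc.2⟩
  · intro c _ c' _ h
    exact Nat.add_right_cancel h
  · intro x hx
    rw [Finset.mem_filter, Finset.mem_Ico] at hx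
    refine ⟨x - j, ?_, by omega⟩
    rw [Finset.mem_filter, Finset.mem_range]
    have e : x - j + j = x := by omega
    rw [e]
    exact ⟨by omega, hx.2⟩

theorem exists_good (f : ℤ[X]) (p : ℕ) (hp : 0 < p) (T : Finset ℕ) : ∃ c : ℕ,
    (((T.filter (fun j => ¬ (p : ℤ) ∣ f.eval (((c + j : ℕ) : ℤ)))).card : ℝ)) ≤
      T.card * (1 - (rho f p : ℝ) / p) := by
  by_contra hcon
  push Not at hcon
  have hp0 : (0 : ℝ) < p := by exact_mod_cast hp
  have h1 : ∑ c ∈ range p, ((T.filter (fun j => ¬ (p : ℤ) ∣ f.eval (((c + j : ℕ) : ℤ)))).card : ℝ) =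
      T.card * (p - rho f p) := by
    have h2 : ∀ c ∈ range p, ((T.filter (fun j => ¬ (p : ℤ) ∣ f.eval (((c + j : ℕ) : ℤ)))).card : ℝ) =
        ∑ j ∈ T, (if (p : ℤ) ∣ f.eval (((c + j : ℕ) : ℤ)) then (0 : ℝ) else 1) := by
      intro c _
      rw [Finset.card_filter]
      push_cast
      refine Finset.sum_congr rfl fun j _ => ?_
      split_ifs <;> simp_all
    rw [Finset.sum_congr rfl h2, Finset.sum_comm]
    have h3 : ∀ j ∈ T, ∑ c ∈ range p, (if (p : ℤ) ∣ f.eval (((c + j : ℕ) : ℤ)) then (0 : ℝ) else 1) =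
        p - rho f p := by
      intro j _
      have h4 : ∑ c ∈ range p, (if (p : ℤ) ∣ f.eval (((c + j : ℕ) : ℤ)) then (0 : ℝ) else 1) =
          ∑ c ∈ range p, (1 - if (p : ℤ) ∣ f.eval (((c + j : ℕ) : ℤ)) then (1 : ℝ) else 0) := by
        refine Finset.sum_congr rfl fun c _ => ?_
        split_ifs <;> simp
      rw [h4, Finset.sum_sub_distrib, ← card_shift f p j, Finset.card_filter]
      push_cast
      simp
    rw [Finset.sum_congr rfl h3, Finset.sum_const, nsmul_eq_mul]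
  have h5 : ∑ c ∈ range p, (T.card * (1 - (rho f p : ℝ) / p)) <
      ∑ c ∈ range p, ((T.filter (fun j => ¬ (p : ℤ) ∣ f.eval (((c + j : ℕ) : ℤ)))).card : ℝ) :=
    Finset.sum_lt_sum_of_nonempty ⟨0, Finset.mem_range.2 hp⟩ (fun c _ => hcon c)
  rw [h1, Finset.sum_const, Finset.card_range, nsmul_eq_mul] at h5
  have h6 : (p : ℝ) * (T.card * (1 - (rho f p : ℝ) / p)) = T.card * (p - rho f p) := by
    field_simp
  linarith

theorem rho_le_p (f : ℤ[X]) (p : ℕ) : rho f p ≤ p := by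
  unfold rho
  exact (Finset.card_filter_le _ _).trans (by simp)

theorem greedy_f (f : ℤ[X]) (S : Finset ℕ) (hS : ∀ p ∈ S, p.Prime) (T : Finset ℕ) :
    ∃ b : ℕ → ℕ, ((T.filter (fun j => ∀ p ∈ S, ¬ (p : ℤ) ∣ f.eval (((b p + j : ℕ) : ℤ)))).card : ℝ) ≤
      T.card * ∏ p ∈ S, (1 - (rho f p : ℝ) / p) := by
  induction S using Finset.induction_on with
  | empty => exact ⟨fun _ => 0, by simp⟩
  | insert q S hq ih =>
    obtain ⟨b, hb⟩ := ih (fun p hp => hS p (Finset.mem_insert_of_mem hp))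
    set T' := T.filter (fun j => ∀ p ∈ S, ¬ (p : ℤ) ∣ f.eval (((b p + j : ℕ) : ℤ))) with hT'
    have hqp := hS q (Finset.mem_insert_self _ _)
    obtain ⟨c, hc⟩ := exists_good f q hqp.pos T'
    refine ⟨fun p => if p = q then c else b p, ?_⟩
    have h1 : T.filter (fun j => ∀ p ∈ insert q S,
        ¬ (p : ℤ) ∣ f.eval ((((if p = q then c else b p) + j : ℕ) : ℤ))) =
        T'.filter (fun j => ¬ (q : ℤ) ∣ f.eval (((c + j : ℕ) : ℤ))) := by
      rw [hT', Finset.filter_filter]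
      apply Finset.filter_congr
      intro j _
      rw [Finset.forall_mem_insert]
      have h2 : (∀ p ∈ S, ¬ (p : ℤ) ∣ f.eval ((((if p = q then c else b p) + j : ℕ) : ℤ))) ↔
          ∀ p ∈ S, ¬ (p : ℤ) ∣ f.eval (((b p + j : ℕ) : ℤ)) := by
        refine forall₂_congr fun p hp => ?_
        have hne : p ≠ q := fun h => hq (h ▸ hp)
        rw [if_neg hne]
      rw [h2, if_pos rfl]
      exact and_comm
    rw [h1, Finset.prod_insert hq]
    have hq0 : (0 : ℝ) < q := by exact_mod_cast hqp.pos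
    have h3 : 0 ≤ 1 - (rho f q : ℝ) / q := by
      rw [sub_nonneg, div_le_one hq0]
      exact_mod_cast rho_le_p f q
    calc _ ≤ T'.card * (1 - (rho f q : ℝ) / q) := hc
      _ ≤ (T.card * ∏ p ∈ S, (1 - (rho f p : ℝ) / p)) * (1 - (rho f q : ℝ) / q) :=
          mul_le_mul_of_nonneg_right hb h3
      _ = _ := by ring

theorem prod_bound (ρ : ℕ → ℕ) (hρ : ∀ p, ρ p ≤ p) (hm : MertLow ρ) :
    ∃ C : ℝ, 0 < C ∧ ∃ y₀ : ℝ, ∀ y : ℝ, y₀ ≤ y →
      ∏ p ∈ (Finset.Icc 1 ⌊y⌋₊).filter Nat.Prime, (1 - (ρ p : ℝ) / p) ≤ C / Real.log y := by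
  obtain ⟨C, hC0, y₁, hC⟩ := hm
  obtain ⟨CM, hM⟩ := Pool.Agent.Helper256.KM.mertens_inv
  obtain ⟨y₂, hy₂⟩ : ∃ y₂ : ℝ, y₂ = max y₁ 3 := ⟨_, rfl⟩
  set K : ℝ := ∑ p ∈ (Finset.Icc 1 ⌊y₂⌋₊).filter Nat.Prime, (1 : ℝ) / p with hK
  refine ⟨2 * Real.exp (C + CM + K), by positivity, max y₂ 4, fun y hy => ?_⟩
  have hyy₂ : y₂ ≤ y := (le_max_left _ _).trans hy
  have hy4 : 4 ≤ y := (le_max_right _ _).trans hy
  have hy3 : 3 ≤ y₂ := by rw [hy₂]; exact le_max_right _ _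
  have hT := hC y₂ y (by rw [hy₂]; exact le_max_left _ _) hyy₂
  set PY := (Finset.Icc 1 ⌊y⌋₊).filter Nat.Prime with hPY
  have hsub : PZ y₂ y ⊆ PY := by
    intro p hp
    unfold PZ at hp
    rw [Finset.mem_filter] at hp
    rw [hPY, Finset.mem_filter]
    exact ⟨hp.1, hp.2.1⟩
  have hsd : PY \ PZ y₂ y ⊆ (Finset.Icc 1 ⌊y₂⌋₊).filter Nat.Prime := by
    intro p hp
    rw [Finset.mem_sdiff, hPY, Finset.mem_filter, Finset.mem_Icc] at hp
    rw [Finset.mem_filter, Finset.mem_Icc]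
    refine ⟨⟨hp.1.1.1, ?_⟩, hp.1.2⟩
    by_contra h
    apply hp.2
    unfold PZ
    rw [Finset.mem_filter, Finset.mem_Icc]
    exact ⟨hp.1.1, hp.1.2, (Nat.floor_lt (by linarith)).1 (by omega)⟩
  have hfl3 : 3 ≤ ⌊y⌋₊ := Nat.le_floor (by push_cast; linarith)
  have h1 : Real.log (Real.log (⌊y⌋₊ : ℝ)) - CM ≤ ∑ p ∈ PY, (1 : ℝ) / p := by
    have := (abs_le.1 (hM ⌊y⌋₊ hfl3)).1
    linarith
  have h2 : ∑ p ∈ PY, (1 : ℝ) / p ≤ ∑ p ∈ PZ y₂ y, (1 : ℝ) / p + K := by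
    rw [← Finset.sum_sdiff hsub, add_comm]
    have h3 : ∑ p ∈ PY \ PZ y₂ y, (1 : ℝ) / p ≤ K := by
      rw [hK]
      exact Finset.sum_le_sum_of_subset_of_nonneg hsd fun p _ _ => by positivity
    linarith
  have h3 : ∑ p ∈ PZ y₂ y, (1 : ℝ) / p - C ≤ ∑ p ∈ PZ y₂ y, (ρ p : ℝ) / p := by
    unfold Tc at hT
    have e : ∑ p ∈ PZ y₂ y, ((ρ p : ℝ) - 1) / p =
        ∑ p ∈ PZ y₂ y, (ρ p : ℝ) / p - ∑ p ∈ PZ y₂ y, (1 : ℝ) / p := by
      rw [← Finset.sum_sub_distrib]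
      exact Finset.sum_congr rfl fun p _ => by ring
    rw [e] at hT
    linarith
  have h4 : ∑ p ∈ PZ y₂ y, (ρ p : ℝ) / p ≤ ∑ p ∈ PY, (ρ p : ℝ) / p :=
    Finset.sum_le_sum_of_subset_of_nonneg hsub fun p _ _ => by positivity
  have h5 : ∏ p ∈ PY, (1 - (ρ p : ℝ) / p) ≤ Real.exp (-∑ p ∈ PY, (ρ p : ℝ) / p) := by
    rw [← Finset.sum_neg_distrib, Real.exp_sum]
    apply Finset.prod_le_prod
    · intro p hp
      rw [hPY, Finset.mem_filter] at hp
      have hp0 : (0 : ℝ) < p := by exact_mod_cast hp.2.pos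
      rw [sub_nonneg, div_le_one hp0]
      exact_mod_cast hρ p
    · intro p _
      have := Real.add_one_le_exp (-((ρ p : ℝ) / p))
      linarith
  have hflr : (3 : ℝ) ≤ (⌊y⌋₊ : ℝ) := by exact_mod_cast hfl3
  have hlfl : 0 < Real.log (⌊y⌋₊ : ℝ) := Real.log_pos (by linarith)
  have hly : 0 < Real.log y := Real.log_pos (by linarith)
  have h6 : Real.exp (-∑ p ∈ PY, (ρ p : ℝ) / p) ≤
      Real.exp (C + CM + K) / Real.log (⌊y⌋₊ : ℝ) := by
    have e : Real.exp (C + CM + K) / Real.log (⌊y⌋₊ : ℝ) =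
        Real.exp (C + CM + K - Real.log (Real.log (⌊y⌋₊ : ℝ))) := by
      rw [Real.exp_sub, Real.exp_log hlfl]
    rw [e]
    apply Real.exp_le_exp.mpr
    linarith
  have h7 : Real.log y / 2 ≤ Real.log (⌊y⌋₊ : ℝ) := by
    have e1 : y ≤ (⌊y⌋₊ : ℝ) ^ 2 := by
      have := (Nat.lt_floor_add_one y).le
      nlinarith
    have e2 := Real.log_le_log (by linarith) e1
    rw [Real.log_pow] at e2
    push_cast at e2
    linarith
  calc _ ≤ _ := h5
    _ ≤ _ := h6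
    _ ≤ Real.exp (C + CM + K) / (Real.log y / 2) :=
        div_le_div_of_nonneg_left (Real.exp_pos _).le (by positivity) h7
    _ = 2 * Real.exp (C + CM + K) / Real.log y := by field_simp

theorem first_step (f : ℤ[X]) (hm : MertLow (rho f)) :
    ∃ C : ℝ, 0 < C ∧ ∃ y₀ : ℝ, ∀ y : ℝ, y₀ ≤ y → ∀ L : ℕ, ∃ a : ℕ,
      (((range (L + 1)).filter (fun j : ℕ => ∀ p : ℕ, p.Prime → (p : ℝ) ≤ y →
        ¬ ((p : ℤ) ∣ f.eval ((a : ℤ) + j)))).card : ℝ) ≤ C * (L + 1) / Real.log y := by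
  obtain ⟨C, hC, y₀, hprod⟩ := prod_bound (rho f) (rho_le_p f) hm
  refine ⟨C, hC, max y₀ 1, fun y hy L => ?_⟩
  have hy0 : 0 ≤ y := by linarith [(le_max_right y₀ 1).trans hy]
  obtain ⟨b, hb⟩ := greedy_f f ((Finset.Icc 1 ⌊y⌋₊).filter Nat.Prime)
    (fun p hp => (Finset.mem_filter.1 hp).2) (range (L + 1))
  obtain ⟨a, -, ha⟩ := exists_crt ⌊y⌋₊ b
  refine ⟨a, ?_⟩
  have h1 := hprod y ((le_max_left _ _).trans hy)
  have h2 : ((range (L + 1)).filter (fun j : ℕ => ∀ p : ℕ, p.Prime → (p : ℝ) ≤ y →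
        ¬ ((p : ℤ) ∣ f.eval ((a : ℤ) + j)))).card ≤
      ((range (L + 1)).filter (fun j => ∀ p ∈ (Finset.Icc 1 ⌊y⌋₊).filter Nat.Prime,
        ¬ (p : ℤ) ∣ f.eval (((b p + j : ℕ) : ℤ)))).card := by
    apply Finset.card_le_card
    intro j hj
    rw [Finset.mem_filter] at hj ⊢
    refine ⟨hj.1, fun p hp hd => ?_⟩
    rw [Finset.mem_filter, Finset.mem_Icc] at hp
    have hpy : (p : ℝ) ≤ y := (Nat.le_floor_iff hy0).1 hp.1.2
    apply hj.2 p hp.2 hpy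
    have h3 : (p : ℤ) ∣ f.eval ((a : ℤ) + j) - f.eval (((b p + j : ℕ) : ℤ)) := by
      refine dvd_trans ?_ (Polynomial.sub_dvd_eval_sub _ _ f)
      have e : (a : ℤ) + j - ((b p + j : ℕ) : ℤ) = (a : ℤ) - b p := by push_cast; ring
      rw [e]
      exact (Nat.modEq_iff_dvd.1 (ha p hp.2 hp.1.2).symm)
    exact (dvd_iff_dvd_of_dvd_sub h3).2 hd
  calc _ ≤ (((range (L + 1)).filter (fun j => ∀ p ∈ (Finset.Icc 1 ⌊y⌋₊).filter Nat.Prime,
        ¬ (p : ℤ) ∣ f.eval (((b p + j : ℕ) : ℤ)))).card : ℝ) := by exact_mod_cast h2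
    _ ≤ _ := hb
    _ ≤ ((range (L + 1)).card : ℝ) * (C / Real.log y) :=
        mul_le_mul_of_nonneg_left h1 (Nat.cast_nonneg _)
    _ = C * (L + 1) / Real.log y := by
        rw [Finset.card_range]
        push_cast
        ring

end Pool.Agent.H378R2.PG
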