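import Pool.Agent.H378R2.PG.Defs

set_option autoImplicit false
set_option linter.unusedVariables false

/-! # Project PG: stubs (never import this file in a hand-in) -/

namespace Pool.Agent.H378R2.PG.Stubs

open Finset Polynomial
open Pool.Agent.H256R2.SC (Asum)
open Pool.Agent.H378R2.QG (PZ Tc)
open Pool.Agent.H378R2.PG

/-! ## B (adapt QL = Pool.Agent.H944R2.QG.QL, where the weight was `1 + χ p`, `|χ p| ≤ 1`) -/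

open Classical in
theorem A_lower_gen (d : ℝ) (hd : 1 ≤ d) : ∃ c₂ : ℝ, 0 < c₂ ∧ ∀ (y₁ z x C : ℝ) (ρ : ℕ → ℝ),
    (∀ p ∈ PZ y₁ z, 0 ≤ ρ p ∧ ρ p ≤ d) →
    3 ≤ y₁ → y₁ ≤ x → x ≤ z → 0 ≤ C →
    (∀ w, y₁ ≤ w → w ≤ z → -C ≤ Tc (fun p => ρ p - 1) y₁ w) →
    c₂ * Real.exp (-C) * (Real.log x / Real.log y₁) - 1 ≤
      ∑ s ∈ ((PZ y₁ z).powerset.filter (fun s : Finset ℕ => s.Nonempty ∧ ∏ p ∈ s, (p : ℝ) ≤ x)),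
        ∏ p ∈ s, ρ p / p := by
  sorry

/-! ## C (adapt `count_roots` in Pool.Agent.H378R2.QG.V1, which is the case of two classes) -/

open Classical in
theorem count_gen {ι : Type} (S : Finset ι) (p : ι → ℕ)
    (hp : ∀ i ∈ S, (p i).Prime) (hinj : ∀ i ∈ S, ∀ j ∈ S, i ≠ j → p i ≠ p j) (R : ι → Finset ℤ)
    (hR : ∀ i ∈ S, ∀ r ∈ R i, ∀ r' ∈ R i, (p i : ℤ) ∣ r - r' → r = r')
    (𝒜 : Finset ℤ) (N Err : ℝ)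
    (hcount : ∀ c : ℤ, |((𝒜.filter (fun x => ((∏ i ∈ S, p i : ℕ) : ℤ) ∣ x - c)).card : ℝ) -
      N / ((∏ i ∈ S, p i : ℕ) : ℝ)| ≤ Err) :
    |((𝒜.filter (fun x => ∀ i ∈ S, ∃ r ∈ R i, (p i : ℤ) ∣ x - r)).card : ℝ) -
      N * ∏ i ∈ S, (((R i).card : ℝ) / (p i : ℝ))| ≤ (∏ i ∈ S, ((R i).card : ℝ)) * Err := by
  sorry

/-! ## D (resultant of `f(x)` and `f(x + t)`) -/

theorem collision (f : ℤ[X]) (hf : Irreducible f) (hd : 1 ≤ f.natDegree) :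
    ∃ A D : ℕ, ∀ t : ℤ, t ≠ 0 → ∃ s : ℤ, s ≠ 0 ∧ |s| ≤ A * (1 + |t|) ^ D ∧
      ∀ r q : ℤ, q ∣ f.eval r → q ∣ f.eval (r + t) → q ∣ s := by
  sorry

/-! ## E (Dedekind zeta function, as real `s → 1+`) -/

theorem mertens_rho (f : ℤ[X]) (hf : Irreducible f) (hd : 1 ≤ f.natDegree) :
    MertLow (rho f) := by
  sorry

/-! ## F (averaging over `a` modulo the product of the primes up to `y`) -/

open Classical in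
theorem first_step (f : ℤ[X]) (hm : MertLow (rho f)) :
    ∃ C : ℝ, 0 < C ∧ ∃ y₀ : ℝ, ∀ y : ℝ, y₀ ≤ y → ∀ L : ℕ, ∃ a : ℕ,
      (((range (L + 1)).filter (fun j : ℕ => ∀ p : ℕ, p.Prime → (p : ℝ) ≤ y →
        ¬ ((p : ℤ) ∣ f.eval ((a : ℤ) + j)))).card : ℝ) ≤ C * (L + 1) / Real.log y := by
  sorry

theorem rho_le (f : ℤ[X]) (hd : f ≠ 0) : ∃ p₀ : ℕ, ∀ p : ℕ, p.Prime → p₀ ≤ p →
    rho f p ≤ f.natDegree := by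
  sorry

theorem growth (f : ℤ[X]) (hd : 1 ≤ f.natDegree) : ∃ n₀ : ℕ, ∀ n : ℕ, n₀ ≤ n →
    (n : ℝ) < ((f.eval (n : ℤ)).natAbs : ℝ) ^ 2 := by
  sorry

/-! ## A (helper378): the covering theorem -/

open Classical in
/-- `ρ p` residue classes `R p k` for each prime `p` and each shift `k` -/
theorem pcov (d B : ℕ) (hd : 1 ≤ d) (hB : 3 ≤ B) (ρ : ℕ → ℕ) (p₀ : ℕ)
    (hρ : ∀ p : ℕ, p.Prime → p₀ ≤ p → ρ p ≤ d) (hm : MertLow ρ) :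
    ∃ c : ℝ, 0 < c ∧ ∃ X₀ : ℝ, ∀ X : ℝ, X₀ ≤ X →
    ∀ (κ : Type) [Fintype κ] [DecidableEq κ], (Fintype.card κ : ℝ) ≤ c * Real.log X →
    ∀ (R : ℕ → κ → Finset ℤ),
    (∀ p : ℕ, p.Prime → (Real.log X) ^ B < p → (p : ℝ) ≤ X ^ (1 / 10 : ℝ) →
      (∀ k, (R p k).card = ρ p) ∧
      ∀ k l, ∀ r ∈ R p k, ∀ r' ∈ R p l, (p : ℤ) ∣ r - r' → k = l ∧ r = r') →
    ∀ (𝒜 : Finset ℤ) (N Err : ℝ), X ^ (1 / 2 : ℝ) ≤ N → 0 ≤ Err → Err ≤ X ^ (1 / 20 : ℝ) →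
    (∀ q : ℕ, Squarefree q → (q : ℝ) ≤ X ^ (1 / 4 : ℝ) →
      (∀ p ∈ q.primeFactors, (Real.log X) ^ B < p) →
      ∀ r : ℤ, |((𝒜.filter (fun x => (q : ℤ) ∣ x - r)).card : ℝ) - N / q| ≤ Err) →
    ∃ x ∈ 𝒜, ∀ k : κ, ∃ p : ℕ, p.Prime ∧ (Real.log X) ^ B < p ∧ (p : ℝ) ≤ X ^ (1 / 10 : ℝ) ∧
      ∃ r ∈ R p k, (p : ℤ) ∣ x - r := by
  sorry

/-! ## G: the main theorem from A, D, F -/

/-- conclusion of A for one polynomial -/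
theorem main (f : ℤ[X]) (hf : Irreducible f) (hd : 1 ≤ f.natDegree) :
    ∃ c : ℝ, 0 < c ∧ ∃ X₀ : ℝ, ∀ X : ℝ, X₀ ≤ X → ∀ M : ℝ, X ≤ M →
    ∃ n : ℕ, M < n ∧ (n : ℝ) ≤ M + X ∧ ∀ j : ℕ, (j : ℝ) ≤ c * (Real.log X * Real.log (Real.log X)) →
      ¬ (f.eval ((n : ℤ) + j)).natAbs.Prime := by
  sorry

end Pool.Agent.H378R2.PG.Stubs
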