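import Pool.Agent.H378R2.PG.V1
import Pool.Agent.H378R2.QG.V

set_option autoImplicit false
set_option linter.unusedSectionVars false
set_option linter.unusedVariables false

/-! # The covering theorem for several classes per prime (project PG, helper378) -/

namespace Pool.Agent.H378R2.PG

open Finset Filter
open Pool.Agent.H256R2.SC (Col supp qq emb emb_mem emb_surj mem_supp prod_nu1 nu1 Asum ev_facts scales
  qn qn_squarefree qn_primeFactors qn_cast)
open Pool.Agent.H378R2.QG (PZ Tc Hyp nu exists_h core sum_inv_PZ num_fin Asum_enum)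

open scoped Classical

/-- the statement of `A_lower_gen` -/
def ALowerGen : Prop := ∀ (d : ℝ) (_ : 1 ≤ d), ∃ c₂ : ℝ, 0 < c₂ ∧
    ∀ (y₁ z x C : ℝ) (ρ : ℕ → ℝ),
    (∀ p ∈ PZ y₁ z, 0 ≤ ρ p ∧ ρ p ≤ d) →
    3 ≤ y₁ → y₁ ≤ x → x ≤ z → 0 ≤ C →
    (∀ w, y₁ ≤ w → w ≤ z → -C ≤ Tc (fun p => ρ p - 1) y₁ w) →
    c₂ * Real.exp (-C) * (Real.log x / Real.log y₁) - 1 ≤
      ∑ s ∈ ((PZ y₁ z).powerset.filter (fun s : Finset ℕ => s.Nonempty ∧ ∏ p ∈ s, (p : ℝ) ≤ x)),
        ∏ p ∈ s, ρ p / p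

private lemma vaux1 (L : ℝ) (hL : 0 < L) : (2 / L) ^ 2 = 4 / L ^ 2 := by field_simp; norm_num
private lemma vaux2 (L : ℝ) (hL : 0 < L) : L * (5 / L ^ 2) = 5 / L := by field_simp
private lemma vaux3 (L : ℝ) (hL : 0 < L) : (L / 8) * (1 / L) = 1 / 8 := by field_simp

theorem num_tail' {L l u S z d : ℝ} (hd : 1 ≤ d) (hLexp : L = Real.exp l) (l10 : 10 ≤ l)
    (hL : 1000 ≤ L)
    (hu0 : 0 ≤ u) (huL : u ≤ L / 8) (hzpos : 0 < z) (hlzpos : 0 < Real.log z)
    (hlz1 : Real.log z ≤ L / (1000 * (d * l))) (hlz2 : L / (2000 * (d * l)) ≤ Real.log z)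
    (hS : S ≤ L / (400 * d)) :
    (u + 1) * ((2 / L) ^ 2 + Real.exp (2 * S / Real.log z -
      Real.log (Real.exp (L / 40) / z) / Real.log z)) ≤ 1 / 8 := by
  have hLpos : 0 < L := by linarith
  have hl0 : 0 < l := by linarith
  have hd0 : 0 < d := by linarith
  have h1 : 2 * S / Real.log z ≤ 10 * l := by
    rw [div_le_iff₀ hlzpos]
    have e3 : 2 * (L / (400 * d)) = 10 * l * (L / (2000 * (d * l))) := by field_simp; norm_num
    have e4 : 10 * l * (L / (2000 * (d * l))) ≤ 10 * l * Real.log z :=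
      mul_le_mul_of_nonneg_left hlz2 (by positivity)
    linarith
  have h2 : 25 * l - 1 ≤ Real.log (Real.exp (L / 40) / z) / Real.log z := by
    rw [Real.log_div (by positivity) hzpos.ne', Real.log_exp, sub_div, div_self hlzpos.ne']
    have : 25 * l ≤ L / 40 / Real.log z := by
      rw [le_div_iff₀ hlzpos]
      calc 25 * l * Real.log z ≤ 25 * l * (L / (1000 * (d * l))) :=
            mul_le_mul_of_nonneg_left hlz1 (by positivity)
        _ = L / 40 / d := by field_simp; norm_num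
        _ ≤ L / 40 := div_le_self (by positivity) hd
    linarith
  have h3 : Real.exp (2 * S / Real.log z - Real.log (Real.exp (L / 40) / z) / Real.log z) ≤
      1 / L ^ 2 := by
    have e1 : (1:ℝ) / L ^ 2 = Real.exp (-(2 * l)) := by
      rw [Real.exp_neg, hLexp, ← Real.exp_nat_mul]
      push_cast
      rw [one_div]
    rw [e1]
    apply Real.exp_le_exp.mpr
    linarith
  have h4 : (u + 1) * ((2 / L) ^ 2 + Real.exp (2 * S / Real.log z -
      Real.log (Real.exp (L / 40) / z) / Real.log z)) ≤ L * (5 / L ^ 2) := by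
    apply mul_le_mul (by linarith) _ (by positivity) hLpos.le
    have : (2 / L) ^ 2 = 4 / L ^ 2 := vaux1 L hLpos
    rw [this]
    have e : (5:ℝ) / L ^ 2 = 4 / L ^ 2 + 1 / L ^ 2 := by ring
    rw [e]
    linarith
  have h5 : L * (5 / L ^ 2) = 5 / L := vaux2 L hLpos
  have h6 : 5 / L ≤ 1 / 8 := by rw [div_le_div_iff₀ hLpos (by norm_num)]; linarith
  linarith

theorem num_mom' {L l u G d : ℝ} {J : ℕ} (hd : 1 ≤ d) (hLexp : L = Real.exp l) (l10 : 10 ≤ l)
    (hL : 1000 ≤ L)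
    (hu0 : 0 ≤ u) (huL : u ≤ L / 8) (hJ1 : (22 * d + 2) * l ≤ (J:ℝ)) (hG : 20 * G ≤ 21 * (d * l)) :
    u * (1 / (3:ℝ)) ^ J * Real.exp ((2 + 6 * 3) * G) ≤ 1 / 8 := by
  have hLpos : 0 < L := by linarith
  have hl0 : 0 < l := by linarith
  have hdl : 0 < d * l := by positivity
  have h1 : (1 / (3:ℝ)) ^ J ≤ Real.exp (-((22 * d + 2) * l)) := by
    have e1 : (1 / (3:ℝ)) = Real.exp (-(Real.log 3)) := by
      rw [Real.exp_neg, Real.exp_log (by norm_num)]; norm_num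
    rw [e1, ← Real.exp_nat_mul]
    apply Real.exp_le_exp.mpr
    have e2 : (1:ℝ) ≤ Real.log 3 := by
      rw [Real.le_log_iff_exp_le (by norm_num)]
      have := Real.exp_one_lt_d9
      linarith
    have e3 : (22 * d + 2) * l ≤ J * Real.log 3 := by
      have : (0:ℝ) ≤ J := Nat.cast_nonneg J
      nlinarith
    linarith
  have h2 : Real.exp ((2 + 6 * 3) * G) ≤ Real.exp (21 * (d * l)) := by
    apply Real.exp_le_exp.mpr
    linarith
  have h3 : (1 / (3:ℝ)) ^ J * Real.exp ((2 + 6 * 3) * G) ≤ 1 / L := by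
    calc (1 / (3:ℝ)) ^ J * Real.exp ((2 + 6 * 3) * G)
        ≤ Real.exp (-((22 * d + 2) * l)) * Real.exp (21 * (d * l)) :=
          mul_le_mul h1 h2 (Real.exp_pos _).le (Real.exp_pos _).le
      _ = Real.exp (-(d * l) - 2 * l) := by rw [← Real.exp_add]; congr 1; ring
      _ ≤ Real.exp (-l) := Real.exp_le_exp.mpr (by linarith)
      _ = 1 / L := by rw [Real.exp_neg, ← hLexp, one_div]
  calc u * (1 / (3:ℝ)) ^ J * Real.exp ((2 + 6 * 3) * G)
      = u * ((1 / (3:ℝ)) ^ J * Real.exp ((2 + 6 * 3) * G)) := by ring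
    _ ≤ (L / 8) * (1 / L) := mul_le_mul huL h3 (by positivity) (by positivity)
    _ = 1 / 8 := vaux3 L hLpos

theorem prof {c₃ l z₀ z y₁ b : ℝ} {m n : ℕ} (hc₃ : 0 < c₃) (hb : 1 ≤ b) (hl0 : 0 < l)
    (hlogz0 : Real.log z₀ = b * (2 / c₃ + 1) * l) (hz01 : 1 < z₀) (hz : z = z₀ ^ (2 ^ m))
    (hy1 : 3 ≤ y₁) (hlogy : Real.log y₁ = b * l) (P g : Fin n → ℝ) (hP1 : ∀ i, 1 < P i)
    (hg0 : ∀ i, 0 ≤ g i)
    (hA : ∀ x, y₁ ≤ x → x ≤ z → c₃ * (Real.log x / Real.log y₁) - 1 ≤ Asum P g x) :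
    ∃ h, Hyp P g h z (4 / (c₃ / (2 * b * l) * ((m + 1 : ℕ) : ℝ))) := by
  have hb0 : 0 < b := by linarith
  set C₀ : ℝ := 2 / c₃ + 1 with hC₀
  have hC1 : 1 ≤ C₀ := by
    rw [hC₀]
    have : 0 < 2 / c₃ := by positivity
    linarith
  set lam : ℝ := c₃ / (2 * b * l) with hlam
  have hlam0 : 0 < lam := by positivity
  have hlogzj : ∀ j : ℕ, Real.log (z₀ ^ (2 ^ j)) = (2:ℝ) ^ j * (b * C₀ * l) := by
    intro j
    rw [Real.log_pow, hlogz0]
    push_cast
    ring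
  have hA' : ∀ j < m + 1, 1 ≤ Asum P g (z₀ ^ (2 ^ j)) ∧
      lam * (2 ^ j * Real.log z₀) ≤ Asum P g (z₀ ^ (2 ^ j)) := by
    intro j hj
    have hxl := hlogzj j
    have h2j : (1:ℝ) ≤ 2 ^ j := one_le_pow₀ (by norm_num)
    have hyx : y₁ ≤ z₀ ^ (2 ^ j) := by
      rw [← Real.log_le_log_iff (by linarith) (by positivity), hxl, hlogy]
      have h1 : b * l ≤ 1 * (b * C₀ * l) := by
        have : 0 < b * l := by positivity
        nlinarith
      have h2 : 0 < b * C₀ * l := by positivity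
      nlinarith
    have hxz : z₀ ^ (2 ^ j) ≤ z := by
      rw [hz]
      exact pow_le_pow_right₀ hz01.le (Nat.pow_le_pow_right (by norm_num) (by omega))
    have h2 := hA (z₀ ^ (2 ^ j)) hyx hxz
    have h3 : c₃ * (Real.log (z₀ ^ (2 ^ j)) / Real.log y₁) = c₃ * (2 ^ j * C₀) := by
      rw [hxl, hlogy]
      field_simp
    rw [h3] at h2
    have h4 : c₃ * C₀ = 2 + c₃ := by
      rw [hC₀]
      field_simp
    have h6 : 2 ≤ c₃ * (2 ^ j * C₀) := by
      calc (2:ℝ) ≤ c₃ * C₀ := by linarith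
        _ = c₃ * (1 * C₀) := by ring
        _ ≤ c₃ * (2 ^ j * C₀) := by
          apply mul_le_mul_of_nonneg_left _ hc₃.le
          apply mul_le_mul_of_nonneg_right h2j (by linarith)
    refine ⟨by linarith, ?_⟩
    have h7 : lam * (2 ^ j * Real.log z₀) = c₃ * (2 ^ j * C₀) / 2 := by
      rw [hlam, hlogz0]
      field_simp
    rw [h7]
    linarith
  obtain ⟨h, H⟩ := exists_h P g hP1 hg0 (m + 1) (by omega) z₀ lam hz01 hlam0 hA'
  have hzz : z₀ ^ (2 ^ (m + 1 - 1)) = z := by rw [hz, Nat.add_sub_cancel]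
  rw [hzz] at H
  exact ⟨h, H⟩

theorem supp_card_le' {L l : ℝ} {n : ℕ} {κ : Type} [Fintype κ] [DecidableEq κ] (P : Fin n → ℝ)
    (hLexp : L = Real.exp l) (hPy : ∀ i, L ≤ P i) (D : Col n κ) (T : ℝ)
    (hD : qq P D ≤ Real.exp T) : ((supp D).card : ℝ) * l ≤ T := by
  have h1 : Real.exp (((supp D).card : ℝ) * l) ≤ qq P D := by
    unfold qq
    rw [prod_nu1]
    have : Real.exp (((supp D).card : ℝ) * l) = ∏ i ∈ supp D, Real.exp l := by
      rw [Finset.prod_const, ← Real.exp_nat_mul]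
    rw [this]
    apply Finset.prod_le_prod
    · intro i _; exact (Real.exp_pos _).le
    · intro i _
      rw [← hLexp]
      exact hPy i
  exact Real.exp_le_exp.mp (h1.trans hD)

/-- `ρ p` residue classes `R p k` for each prime `p` and each shift `k` -/
theorem pcov_of (hAlg : ALowerGen) (hcg : CountGen) (d B : ℕ) (hd : 1 ≤ d) (hB : 3 ≤ B)
    (ρ : ℕ → ℕ) (p₀ : ℕ)
    (hρ : ∀ p : ℕ, p.Prime → p₀ ≤ p → ρ p ≤ d) (hm : MertLow ρ) :
    ∃ c : ℝ, 0 < c ∧ ∃ X₀ : ℝ, ∀ X : ℝ, X₀ ≤ X →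
    ∀ (κ : Type) [Fintype κ] [DecidableEq κ], (Fintype.card κ : ℝ) ≤ c * Real.log X →
    ∀ (R : ℕ → κ → Finset ℤ),
    (∀ p : ℕ, p.Prime → (Real.log X) ^ B < p → (p : ℝ) ≤ X ^ (1 / 10 : ℝ) →
      (∀ k, (R p k).card = ρ p) ∧
      ∀ k l, ∀ r ∈ R p k, ∀ r' ∈ R p l, (p : ℤ) ∣ r - r' → k = l ∧ r = r') →
    ∀ (𝒜 : Finset ℤ) (N Err : ℝ), X ^ (1 / 2 : ℝ) ≤ N → 0 ≤ Err → Err ≤ X ^ (1 / 20 : ℝ) →
    (∀ q : ℕ, Squarefree q → (q : ℝ) ≤ X ^ (1 / 4 : ℝ) →
      (∀ p ∈ q.primeFactors, (Real.log X) ^ B < p) →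
      ∀ r : ℤ, |((𝒜.filter (fun x => (q : ℤ) ∣ x - r)).card : ℝ) - N / q| ≤ Err) →
    ∃ x ∈ 𝒜, ∀ k : κ, ∃ p : ℕ, p.Prime ∧ (Real.log X) ^ B < p ∧ (p : ℝ) ≤ X ^ (1 / 10 : ℝ) ∧
      ∃ r ∈ R p k, (p : ℤ) ∣ x - r := by
  have hdr : (1:ℝ) ≤ (d:ℝ) := by exact_mod_cast hd
  obtain ⟨c₂, hc₂, hAl⟩ := hAlg d hdr
  obtain ⟨C, hC0, y₀, hT⟩ := hm
  obtain ⟨CM₀, hM₀⟩ := Pool.Agent.Helper256.KM.mertens_inv
  have hCM0 : 0 ≤ max CM₀ 0 := le_max_right _ _
  have hc₃ : 0 < c₂ * Real.exp (-C) := mul_pos hc₂ (Real.exp_pos _)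
  obtain ⟨c₃, hc3⟩ : ∃ c₃, c₃ = c₂ * Real.exp (-C) := ⟨_, rfl⟩
  rw [← hc3] at hc₃
  obtain ⟨b, hb⟩ : ∃ b : ℝ, b = (B:ℝ) := ⟨_, rfl⟩
  have hb3 : 3 ≤ b := by rw [hb]; exact_mod_cast hB
  have hb0 : 0 < b := by linarith
  have hd0 : (0:ℝ) < d := by linarith
  obtain ⟨C₁, hC₁⟩ : ∃ C₁ : ℝ, C₁ = b / 2 * (2 / c₃ + 1) := ⟨_, rfl⟩
  have hC1 : 1 ≤ C₁ := by
    have h1 : 0 < 2 / c₃ := by positivity
    rw [hC₁]
    nlinarith
  have hdC1 : 1 ≤ d * C₁ := by nlinarith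
  obtain ⟨c, hc⟩ : ∃ c : ℝ, c = min (1 / 8) (c₃ / (3200 * b * d)) := ⟨_, rfl⟩
  have hc0 : 0 < c := by rw [hc]; exact lt_min (by norm_num) (by positivity)
  have hc8 : c ≤ 1 / 8 := by rw [hc]; exact min_le_left _ _
  have hcc : c ≤ c₃ / (3200 * b * d) := by rw [hc]; exact min_le_right _ _
  obtain ⟨L₀, hL₀⟩ := ev_facts (d * C₁) (max CM₀ 0)
  refine ⟨c, hc0, Real.exp (max (max L₀ (max y₀ p₀)) ((d:ℝ) ^ 5)), ?_⟩
  intro X hX κ _ _ hκ R hR 𝒜 N Err hN hErr0 hErr hcount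
  have hX0 : 0 < X := lt_of_lt_of_le (Real.exp_pos _) hX
  obtain ⟨L, hL⟩ : ∃ L, L = Real.log X := ⟨_, rfl⟩
  rw [← hL] at hκ hR hcount ⊢
  have hXL : X = Real.exp L := by rw [hL]; exact (Real.exp_log hX0).symm
  have hLmax : max (max L₀ (max y₀ p₀)) ((d:ℝ) ^ 5) ≤ L := by
    rw [hL, ← Real.log_exp (max (max L₀ (max y₀ p₀)) ((d:ℝ) ^ 5))]
    exact Real.log_le_log (Real.exp_pos _) hX
  have hLL₀ : L₀ ≤ L := ((le_max_left _ _).trans (le_max_left _ _)).trans hLmax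
  have hLy₀ : y₀ ≤ L :=
    (((le_max_left _ _).trans (le_max_right _ _)).trans (le_max_left _ _)).trans hLmax
  have hLp₀ : (p₀:ℝ) ≤ L :=
    (((le_max_right _ _).trans (le_max_right _ _)).trans (le_max_left _ _)).trans hLmax
  have hLd5 : (d:ℝ) ^ 5 ≤ L := (le_max_right _ _).trans hLmax
  have hLd : (d:ℝ) ≤ L := by
    refine le_trans ?_ hLd5
    calc (d:ℝ) = d ^ 1 := (pow_one _).symm
      _ ≤ d ^ 5 := pow_le_pow_right₀ hdr (by norm_num)
  obtain ⟨f1, f2, f3, f4, f5, f6⟩ := hL₀ L hLL₀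
  obtain ⟨m, hm1, hm2, hm3⟩ := scales (d * C₁) L hdC1 f1 f3 f5
  obtain ⟨l, hl⟩ : ∃ l, l = Real.log L := ⟨_, rfl⟩
  rw [← hl] at f1 f2 f6 hm1 hm2 hm3
  clear f3 hLmax hL₀
  have hl0 : 0 < l := by linarith
  have hLpos : 0 < L := by linarith
  have hL1 : 1 ≤ L := by linarith
  have hLexp : L = Real.exp l := by rw [hl]; exact (Real.exp_log hLpos).symm
  have hXr : ∀ s : ℝ, X ^ s = Real.exp (s * L) := by
    intro s
    rw [hXL, ← Real.exp_mul, mul_comm]
  obtain ⟨z₀, hz₀⟩ : ∃ z₀, z₀ = Real.exp (b * (2 / c₃ + 1) * l) := ⟨_, rfl⟩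
  obtain ⟨z, hz⟩ : ∃ z, z = z₀ ^ (2 ^ m) := ⟨_, rfl⟩
  have hlogz0 : Real.log z₀ = b * (2 / c₃ + 1) * l := by rw [hz₀]; exact Real.log_exp _
  have hz01 : 1 < z₀ := by rw [hz₀]; exact Real.one_lt_exp_iff.mpr (by positivity)
  have hlogz : Real.log z = (2:ℝ) ^ m * (2 * (d * C₁) * l) / d := by
    rw [hz, Real.log_pow, hlogz0, hC₁]
    push_cast
    field_simp
  have hzpos : 0 < z := by rw [hz]; positivity
  have hlz1 : Real.log z ≤ L / (1000 * (d * l)) := by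
    rw [hlogz]
    have e : L / (1000 * (d * l)) = L / (1000 * l) / d := by field_simp
    rw [e]
    exact div_le_div_of_nonneg_right hm1 hd0.le
  have hlz2 : L / (2000 * (d * l)) ≤ Real.log z := by
    rw [hlogz]
    have e : L / (2000 * (d * l)) = L / (2000 * l) / d := by field_simp
    rw [e]
    exact div_le_div_of_nonneg_right hm2 hd0.le
  have hyz' : b * l ≤ Real.log z := by
    have h0 : Real.log z = (2:ℝ) ^ m * (b * (2 / c₃ + 1) * l) := by
      rw [hz, Real.log_pow, hlogz0]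
      push_cast
      ring
    rw [h0]
    have h2j : (1:ℝ) ≤ 2 ^ m := one_le_pow₀ (by norm_num)
    have h00 : 0 < 2 / c₃ := by positivity
    have h01 : 0 < b * l := by positivity
    have h1 : b * l ≤ b * (2 / c₃ + 1) * l := by nlinarith
    have h2 : 0 < b * (2 / c₃ + 1) * l := by positivity
    nlinarith
  clear hlogz hm1 hm2
  have hdl : 10 ≤ d * l := by nlinarith
  have hlzpos : 0 < Real.log z := lt_of_lt_of_le (by positivity) hlz2
  have hzexp : z = Real.exp (Real.log z) := (Real.exp_log hzpos).symm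
  have hz1 : 1 < z := by rw [hzexp]; exact Real.one_lt_exp_iff.mpr hlzpos
  have hlzL : Real.log z ≤ L / 10000 := by
    refine hlz1.trans ?_
    apply div_le_div_of_nonneg_left hLpos.le (by norm_num)
    linarith
  have hz10 : z ≤ X ^ (1 / 10 : ℝ) := by
    rw [hzexp, hXr]
    apply Real.exp_le_exp.mpr
    linarith
  have hzL : z ≤ Real.exp L := by
    rw [hzexp]
    exact Real.exp_le_exp.mpr (by linarith)
  have hLB3 : L ^ 3 ≤ L ^ B := pow_le_pow_right₀ hL1 hB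
  have hLL3 : L ≤ L ^ 3 := by
    calc L = L ^ 1 := (pow_one _).symm
      _ ≤ L ^ 3 := pow_le_pow_right₀ hL1 (by norm_num)
  have hy1' : 1000 ≤ L ^ B := by linarith
  have hy1 : 3 ≤ L ^ B := by linarith
  have hlogy : Real.log (L ^ B) = b * l := by rw [Real.log_pow, ← hl, hb]
  have hyz : L ^ B ≤ z := by
    rw [← Real.log_le_log_iff (by linarith) hzpos, hlogy]
    exact hyz'
  -- the sieving primes
  obtain ⟨PP, hPP⟩ : ∃ PP, PP = PZ (L ^ B) z := ⟨_, rfl⟩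
  have hPPmem : ∀ p ∈ PP, p.Prime ∧ L ^ B < (p:ℝ) ∧ (p:ℝ) ≤ z := by
    intro p hp
    rw [hPP] at hp
    unfold PZ at hp
    rw [Finset.mem_filter, Finset.mem_Icc] at hp
    refine ⟨hp.2.1, hp.2.2, ?_⟩
    calc (p:ℝ) ≤ (⌊z⌋₊ : ℝ) := by exact_mod_cast hp.1.2
      _ ≤ z := Nat.floor_le hzpos.le
  have hPprime : ∀ p ∈ PP, p.Prime := fun p hp => (hPPmem p hp).1
  have hn1 : (PP.card:ℝ) + 1 ≤ z := by
    have h1 : PP ⊆ Finset.Icc 2 ⌊z⌋₊ := by
      intro p hp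
      have hp' := hp
      rw [hPP] at hp'
      unfold PZ at hp'
      rw [Finset.mem_filter, Finset.mem_Icc] at hp'
      rw [Finset.mem_Icc]
      exact ⟨hp'.2.1.two_le, hp'.1.2⟩
    have h2 := Finset.card_le_card h1
    rw [Nat.card_Icc] at h2
    have h3 : 1 ≤ ⌊z⌋₊ := Nat.le_floor (by
      push_cast
      exact hz1.le)
    have h4 : PP.card + 1 ≤ ⌊z⌋₊ := by omega
    calc (PP.card:ℝ) + 1 ≤ (⌊z⌋₊ : ℝ) := by exact_mod_cast h4
      _ ≤ z := Nat.floor_le hzpos.le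
  have hρd : ∀ p ∈ PP, ρ p ≤ d := by
    intro p hp
    obtain ⟨h1, h2, h3⟩ := hPPmem p hp
    apply hρ p h1
    have : (p₀:ℝ) ≤ p := by linarith
    exact_mod_cast this
  have hRcard : ∀ p ∈ PP, ∀ k, (R p k).card = ρ p := fun p hp =>
    (hR p (hPPmem p hp).1 (hPPmem p hp).2.1 ((hPPmem p hp).2.2.trans hz10)).1
  have hinj : ∀ p ∈ PP, ∀ k l, ∀ r ∈ R p k, ∀ r' ∈ R p l, (p : ℤ) ∣ r - r' → k = l ∧ r = r' :=
    fun p hp =>
    (hR p (hPPmem p hp).1 (hPPmem p hp).2.1 ((hPPmem p hp).2.2.trans hz10)).2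
  have hgdef : ∀ (i : Fin PP.card) (k : κ), gg PP ρ κ i k =
      (ρ (emb PP i) : ℝ) / ((emb PP i : ℕ) : ℝ) := fun i k => rfl
  have hPy : ∀ i : Fin PP.card, L ^ B < ((emb PP i : ℕ) : ℝ) :=
    fun i => (hPPmem _ (emb_mem PP i)).2.1
  have hPy3 : ∀ i : Fin PP.card, L ^ 3 < ((emb PP i : ℕ) : ℝ) := fun i => by linarith [hPy i]
  have hPL : ∀ i : Fin PP.card, L ≤ ((emb PP i : ℕ) : ℝ) := fun i => by linarith [hPy3 i]
  have hPz : ∀ i : Fin PP.card, ((emb PP i : ℕ) : ℝ) ≤ z := fun i => (hPPmem _ (emb_mem PP i)).2.2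
  have hP1 : ∀ i : Fin PP.card, 1 < ((emb PP i : ℕ) : ℝ) := fun i => by linarith [hPy i]
  have hP0 : ∀ i : Fin PP.card, 0 < ((emb PP i : ℕ) : ℝ) := fun i => by linarith [hPy i]
  have hg0 : ∀ (i : Fin PP.card) (k : κ), 0 ≤ gg PP ρ κ i k := fun i k => by
    rw [hgdef]
    exact div_nonneg (Nat.cast_nonneg _) (hP0 i).le
  have hgP : ∀ (i : Fin PP.card) (k : κ), gg PP ρ κ i k ≤ d / ((emb PP i : ℕ) : ℝ) := fun i k => by
    rw [hgdef]
    apply div_le_div_of_nonneg_right _ (hP0 i).le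
    exact_mod_cast hρd _ (emb_mem PP i)
  have hgy : ∀ (i : Fin PP.card) (k : κ), gg PP ρ κ i k ≤ 1 / L ^ 2 := fun i k => by
    refine (hgP i k).trans ?_
    rw [div_le_div_iff₀ (hP0 i) (by positivity)]
    have := hPy3 i
    have e : (d:ℝ) * L ^ 2 ≤ L * L ^ 2 := mul_le_mul_of_nonneg_right hLd (by positivity)
    have e2 : L * L ^ 2 = L ^ 3 := by ring
    linarith
  -- the profile
  have hAsum : ∀ (k : κ) (x : ℝ), Asum (fun i => ((emb PP i : ℕ) : ℝ)) (fun i => gg PP ρ κ i k) x =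
      ∑ s ∈ (PP.powerset.filter (fun s : Finset ℕ => s.Nonempty ∧ ∏ p ∈ s, (p : ℝ) ≤ x)),
        ∏ p ∈ s, (ρ p : ℝ) / p := fun k x =>
    Asum_enum PP (fun p => (ρ p : ℝ) / p) x
  obtain ⟨K₁, hK₁⟩ : ∃ K₁, K₁ = 4 / (c₃ / (2 * b * l) * ((m + 1 : ℕ) : ℝ)) := ⟨_, rfl⟩
  have hprof : ∀ k : κ, ∃ h, Hyp (fun i => ((emb PP i : ℕ) : ℝ))
      (fun i => gg PP ρ κ i k) h z K₁ := by
    intro k
    rw [hK₁]
    apply prof hc₃ (by linarith) hl0 hlogz0 hz01 hz hy1 hlogy _ _ hP1 (fun i => hg0 i k)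
    intro x hx1 hx2
    have h1 := hAl (L ^ B) z x C (fun p => (ρ p : ℝ))
      (fun p hp => by
        rw [← hPP] at hp
        exact ⟨Nat.cast_nonneg _, by exact_mod_cast hρd p hp⟩) hy1 hx1 hx2 hC0
      (fun w hw1 hw2 => hT (L ^ B) w (by linarith) hw1)
    rw [← hc3, ← hPP] at h1
    rw [hAsum]
    exact h1
  clear hAsum hT hAl
  choose h H using hprof
  have hK16 : K₁ ≤ 8 * b / c₃ := by
    rw [hK₁, div_le_div_iff₀ (by positivity) hc₃]
    have h1 : c₃ / 2 ≤ b * (c₃ / (2 * b * l) * ((m + 1 : ℕ) : ℝ)) := by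
      push_cast
      calc c₃ / 2 = b * (c₃ / (2 * b * l) * l) := by field_simp
        _ ≤ b * (c₃ / (2 * b * l) * (m + 1)) := by
          apply mul_le_mul_of_nonneg_left _ hb0.le
          exact mul_le_mul_of_nonneg_left hm3 (by positivity)
    linarith
  have hK₁0 : 0 ≤ K₁ := by rw [hK₁]; positivity
  have hKsum : ∑ _k : κ, K₁ ≤ L / (400 * d) := by
    rw [Finset.sum_const, Finset.card_univ, nsmul_eq_mul]
    calc (Fintype.card κ : ℝ) * K₁ ≤ (c * L) * (8 * b / c₃) :=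
          mul_le_mul hκ hK16 hK₁0 (by positivity)
      _ ≤ (c₃ / (3200 * b * d) * L) * (8 * b / c₃) := by
          apply mul_le_mul_of_nonneg_right _ (by positivity)
          exact mul_le_mul_of_nonneg_right hcc hLpos.le
      _ = L / (400 * d) := by field_simp; norm_num
  obtain ⟨u, hu⟩ : ∃ u, u = (Fintype.card κ : ℝ) := ⟨_, rfl⟩
  have hu0 : 0 ≤ u := by rw [hu]; exact Nat.cast_nonneg _
  have huL : u ≤ L / 8 := by
    rw [hu]
    refine hκ.trans ?_
    calc c * L ≤ 1 / 8 * L := mul_le_mul_of_nonneg_right hc8 hLpos.le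
      _ = L / 8 := by ring
  -- the sum of the densities
  have hmax : 20 * max CM₀ 0 ≤ l := f2
  have hz3 : 3 ≤ z := by linarith
  have hsumP : ∑ i : Fin PP.card, 1 / ((emb PP i : ℕ) : ℝ) ≤ l + max CM₀ 0 := by
    have h1 : ∑ i : Fin PP.card, 1 / ((emb PP i : ℕ) : ℝ) = ∑ p ∈ PP, 1 / (p:ℝ) := by
      have : PP = univ.map (emb PP) := by
        ext p
        rw [Finset.mem_map]
        constructor
        · intro hp
          obtain ⟨i, hi⟩ := emb_surj PP hp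
          exact ⟨i, Finset.mem_univ _, hi⟩
        · rintro ⟨i, _, rfl⟩
          exact emb_mem PP i
      conv_rhs => rw [this]
      rw [Finset.sum_map]
    rw [h1, hPP, hl]
    exact sum_inv_PZ hM₀ hz3 (by linarith)
  have hGk : ∀ k : κ, ∑ i, gg PP ρ κ i k ≤ d * (l + max CM₀ 0) := by
    intro k
    calc ∑ i, gg PP ρ κ i k ≤ ∑ i : Fin PP.card, d * (1 / ((emb PP i : ℕ) : ℝ)) := by
          apply Finset.sum_le_sum
          intro i _
          have := hgP i k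
          have e : d * (1 / ((emb PP i : ℕ) : ℝ)) = d / ((emb PP i : ℕ) : ℝ) := by ring
          rw [e]
          exact this
      _ = d * ∑ i : Fin PP.card, 1 / ((emb PP i : ℕ) : ℝ) := by rw [Finset.mul_sum]
      _ ≤ d * (l + max CM₀ 0) := mul_le_mul_of_nonneg_left hsumP hd0.le
  -- parameters
  obtain ⟨J, hJ⟩ : ∃ J : ℕ, J = 2 * ⌈(11 * d + 1) * l⌉₊ := ⟨_, rfl⟩
  have hJ1 : (22 * d + 2) * l ≤ (J:ℝ) := by
    have := Nat.le_ceil ((11 * d + 1) * l)
    rw [hJ]; push_cast; linarith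
  have hJ2 : (J:ℝ) ≤ 25 * (d * l) := by
    have := Nat.ceil_lt_add_one (show 0 ≤ (11 * d + 1) * l by positivity)
    have h2 : l ≤ d * l := by nlinarith
    rw [hJ]; push_cast; linarith
  have hJe : Even J := ⟨⌈(11 * d + 1) * l⌉₊, by rw [hJ]; ring⟩
  have hQ1 : 1 ≤ Real.exp (L / 40) := Real.one_le_exp (by positivity)
  have hzJ : z ^ J ≤ Real.exp (45 * L / 1000) := by
    rw [hzexp, ← Real.exp_nat_mul]
    apply Real.exp_le_exp.mpr
    calc (J:ℝ) * Real.log z ≤ (25 * (d * l)) * (L / (1000 * (d * l))) :=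
          mul_le_mul hJ2 hlz1 hlzpos.le (by positivity)
      _ = 25 * L / 1000 := by field_simp
      _ ≤ 45 * L / 1000 := by linarith
  -- sizes of supports
  have hδ : ∀ D : Col PP.card κ, qq (fun i => ((emb PP i : ℕ) : ℝ)) D ≤ Real.exp (L / 40) →
      ∀ k, 2 * ∑ i with D i ≠ none, gg PP ρ κ i k ≤ 2 / L := by
    intro D hD k
    have h1 : ∑ i with D i ≠ none, gg PP ρ κ i k ≤ (supp D).card * (1 / L ^ 2) := by
      have : ∑ i ∈ supp D, gg PP ρ κ i k ≤ ∑ i ∈ supp D, (1 / L ^ 2) :=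
        Finset.sum_le_sum (fun i _ => hgy i k)
      rw [Finset.sum_const, nsmul_eq_mul] at this
      exact this
    have h2 := supp_card_le' (fun i => ((emb PP i : ℕ) : ℝ)) hLexp hPL D (L / 40) hD
    have h2' : ((supp D).card : ℝ) ≤ L / 40 := by
      have h2 : 0 ≤ ((supp D).card : ℝ) := Nat.cast_nonneg _
      nlinarith
    have h3 : ((supp D).card : ℝ) * (1 / L ^ 2) ≤ L / 40 * (1 / L ^ 2) :=
      mul_le_mul_of_nonneg_right h2' (by positivity)
    have h4 : L / 40 * (1 / L ^ 2) = 1 / (40 * L) := by field_simp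
    have h5 : 1 / (40 * L) ≤ 1 / L := by
      apply one_div_le_one_div_of_le hLpos
      linarith
    have h6 : 2 / L = 2 * (1 / L) := by ring
    rw [h6]
    linarith
  -- the count
  have hevent : ∀ D : Col PP.card κ,
      qq (fun i => ((emb PP i : ℕ) : ℝ)) D ≤ Real.exp (L / 40) ^ 2 * z ^ J →
      |((𝒜.filter (fun a => ∀ i, D i ≠ none → colg PP R a i = D i)).card : ℝ) -
        N * nu (gg PP ρ κ) D| ≤ Real.exp (7 * L / 100) := by
    intro D hD
    have hD1 : qq (fun i => ((emb PP i : ℕ) : ℝ)) D ≤ Real.exp (L / 10) := by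
      refine hD.trans ?_
      calc Real.exp (L / 40) ^ 2 * z ^ J ≤ Real.exp (L / 40) ^ 2 * Real.exp (45 * L / 1000) :=
            mul_le_mul_of_nonneg_left hzJ (by positivity)
        _ = Real.exp (L / 20 + 45 * L / 1000) := by
            rw [← Real.exp_nat_mul, ← Real.exp_add]
            congr 1
            push_cast
            ring
        _ ≤ Real.exp (L / 10) := Real.exp_le_exp.mpr (by linarith)
    have hcast : ((∏ i ∈ supp D, emb PP i : ℕ) : ℝ) = qq (fun i => ((emb PP i : ℕ) : ℝ)) D :=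
      qn_cast PP D
    have h1 := event_count hcg hPprime hd hρd hRcard hinj D 𝒜 N Err hErr0 (by
      intro r
      apply hcount _ (qn_squarefree hPprime D)
      · have h2 : ((∏ i ∈ supp D, emb PP i : ℕ) : ℝ) ≤ X ^ (1 / 4 : ℝ) := by
          rw [hcast, hXr]
          exact hD1.trans (Real.exp_le_exp.mpr (by linarith))
        exact h2
      · intro p hp
        exact (hPPmem p (qn_primeFactors hPprime D hp)).2.1)
    refine h1.trans ?_
    have h2 := supp_card_le' (fun i => ((emb PP i : ℕ) : ℝ)) hLexp hPL D (L / 10) hD1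
    have h3 : (d:ℝ) ^ (supp D).card ≤ Real.exp (L / 50) := by
      have hdl5 : Real.log d ≤ l / 5 := by
        have h5 : Real.log ((d:ℝ) ^ 5) ≤ Real.log L := Real.log_le_log (by positivity) hLd5
        rw [Real.log_pow, ← hl] at h5
        push_cast at h5
        linarith
      have e1 : (d:ℝ) ^ (supp D).card = Real.exp ((supp D).card * Real.log d) := by
        rw [Real.exp_nat_mul, Real.exp_log hd0]
      rw [e1]
      apply Real.exp_le_exp.mpr
      have h4 : 0 ≤ ((supp D).card : ℝ) := Nat.cast_nonneg _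
      calc ((supp D).card : ℝ) * Real.log d ≤ ((supp D).card : ℝ) * (l / 5) :=
            mul_le_mul_of_nonneg_left hdl5 h4
        _ ≤ L / 50 := by linarith
    rw [hXr] at hErr
    calc (d:ℝ) ^ (supp D).card * Err ≤ Real.exp (L / 50) * Real.exp (1 / 20 * L) :=
          mul_le_mul h3 hErr hErr0 (Real.exp_pos _).le
      _ = Real.exp (7 * L / 100) := by rw [← Real.exp_add]; congr 1; ring
  have hNpos : 0 < N := lt_of_lt_of_le (Real.rpow_pos_of_pos hX0 _) hN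
  rw [hXr] at hN
  -- apply the core theorem
  have hL8 : (80:ℝ) ≤ L := by linarith
  have hLL2 : (1000:ℝ) ≤ L ^ 2 := by nlinarith
  clear hcount hErr hK16 hK₁0 hcc
  obtain ⟨a, ha, hcov⟩ := core (κ := κ) 𝒜 (colg PP R) H (Real.exp (L / 40)) (2 / L) 3 N
    (Real.exp (7 * L / 100)) (d * (l + max CM₀ 0)) J
    hJe (by norm_num) hNpos (Real.exp_pos _).le hQ1 hz1 (fun i => (hP1 i).le) hg0 hPz
    (fun i k => by
      have h1 : (1:ℝ) / L ^ 2 ≤ 1 := by rw [div_le_one (by linarith)]; linarith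
      exact (hgy i k).trans h1)
    (fun i k => by
      have h1 : (1:ℝ) / L ^ 2 ≤ 1 / 9 := by
        rw [div_le_div_iff₀ (by linarith) (by norm_num)]
        linarith
      have := hgy i k
      linarith)
    (fun i => by
      have h0 : ∑ k, gg PP ρ κ i k ≤ ∑ k : κ, 1 / L ^ 2 := Finset.sum_le_sum (fun k _ => hgy i k)
      rw [Finset.sum_const, Finset.card_univ, nsmul_eq_mul, ← hu] at h0
      have h1 : u * (1 / L ^ 2) ≤ (L / 8) * (1 / L ^ 2) :=
        mul_le_mul_of_nonneg_right huL (by positivity)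
      have h2 : (L / 8) * (1 / L ^ 2) = 1 / (8 * L) := by field_simp
      have h3 : 1 / (8 * L) ≤ 1 := by rw [div_le_one (by positivity)]; linarith
      linarith)
    (by positivity) hGk hδ
    (by
      rw [← hu]
      have : u * (2 / L) ≤ (L / 8) * (2 / L) := mul_le_mul_of_nonneg_right huL (by positivity)
      have e : (L / 8) * (2 / L) = 1 / 4 := by field_simp; norm_num
      linarith)
    (by
      rw [← hu]
      have h1 : ∑ i : Fin PP.card, 1 / ((emb PP i : ℕ) : ℝ) ^ 2 ≤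
          (1 / L ^ 2) * ∑ i : Fin PP.card, 1 / ((emb PP i : ℕ) : ℝ) := by
        rw [Finset.mul_sum]
        apply Finset.sum_le_sum
        intro i _
        have e1 : 1 / ((emb PP i : ℕ) : ℝ) ^ 2 =
            (1 / ((emb PP i : ℕ) : ℝ)) * (1 / ((emb PP i : ℕ) : ℝ)) := by
          have := (hP0 i).ne'
          field_simp
        rw [e1]
        apply mul_le_mul_of_nonneg_right _ (one_div_nonneg.mpr (hP0 i).le)
        have e3 : L ^ 2 ≤ L ^ 3 := pow_le_pow_right₀ hL1 (by norm_num)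
        exact one_div_le_one_div_of_le (by linarith) (by linarith [hPy3 i])
      have h2 : (1 / L ^ 2) * ∑ i : Fin PP.card, 1 / ((emb PP i : ℕ) : ℝ) ≤ (1 / L ^ 2) * (2 * L) := by
        apply mul_le_mul_of_nonneg_left _ (by positivity)
        linarith
      have h3 : (1 / L ^ 2) * (2 * L) = 2 / L := by field_simp
      have h4 : 2 * u * ∑ i : Fin PP.card, 1 / ((emb PP i : ℕ) : ℝ) ^ 2 ≤ 2 * (L / 8) * (2 / L) := by
        apply mul_le_mul _ (by linarith) (Finset.sum_nonneg (fun i _ => by positivity))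
          (by positivity)
        linarith
      have e : 2 * (L / 8) * (2 / L) = 1 / 2 := by field_simp; norm_num
      linarith)
    (by
      rw [← hu]
      exact num_tail' hdr hLexp f1 f5 hu0 huL hzpos hlzpos hlz1 hlz2 hKsum)
    (by
      rw [← hu]
      exact num_mom' hdr hLexp f1 f5 hu0 huL hJ1 (by nlinarith))
    hevent
    (by
      rw [← hu]
      exact num_fin f5 hu0 (by linarith) hn1 hzJ hN)
  refine ⟨a, ha, fun k => ?_⟩
  obtain ⟨i, hi⟩ := hcov k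
  have h1 := (colg_eq hinj a i k).mp hi
  have h2 := hPPmem _ (emb_mem PP i)
  exact ⟨emb PP i, h2.1, h2.2.1, h2.2.2.trans hz10, h1⟩

end Pool.Agent.H378R2.PG
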