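import Pool.Agent.H378R2.PG.Defs
import Pool.Agent.H256R2.SC.V1

set_option autoImplicit false
set_option linter.unusedSectionVars false

/-! # Counting the `x` with prescribed colours (project PG, helper378) -/

namespace Pool.Agent.H378R2.PG

open Finset
open Pool.Agent.H256R2.SC (Col supp qq emb emb_mem emb_surj crt_int mem_supp prod_nu1 nu1)
open Pool.Agent.H378R2.QG (nu nug)

open scoped Classical

/-- the statement of `count_gen` -/
def CountGen : Prop := ∀ {ι : Type} (S : Finset ι) (p : ι → ℕ)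
    (_ : ∀ i ∈ S, (p i).Prime) (_ : ∀ i ∈ S, ∀ j ∈ S, i ≠ j → p i ≠ p j) (R : ι → Finset ℤ)
    (_ : ∀ i ∈ S, ∀ r ∈ R i, ∀ r' ∈ R i, (p i : ℤ) ∣ r - r' → r = r')
    (𝒜 : Finset ℤ) (N Err : ℝ)
    (_ : ∀ c : ℤ, |((𝒜.filter (fun x => ((∏ i ∈ S, p i : ℕ) : ℤ) ∣ x - c)).card : ℝ) -
      N / ((∏ i ∈ S, p i : ℕ) : ℝ)| ≤ Err),
    |((𝒜.filter (fun x => ∀ i ∈ S, ∃ r ∈ R i, (p i : ℤ) ∣ x - r)).card : ℝ) -
      N * ∏ i ∈ S, (((R i).card : ℝ) / (p i : ℝ))| ≤ (∏ i ∈ S, ((R i).card : ℝ)) * Err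

section
variable {κ : Type} [Fintype κ] [DecidableEq κ]

/-- colouring of the integers: the prime number `i` kills the shift `k` at `a` if `a` is in one
of the classes `R p k` modulo `p` -/
noncomputable def colg (PP : Finset ℕ) (R : ℕ → κ → Finset ℤ) (a : ℤ) : Col PP.card κ := fun i =>
  if h : ∃ k, ∃ r ∈ R (emb PP i) k, ((emb PP i : ℕ) : ℤ) ∣ a - r then some h.choose else none

theorem colg_eq {PP : Finset ℕ} {R : ℕ → κ → Finset ℤ}
    (hinj : ∀ p ∈ PP, ∀ k l, ∀ r ∈ R p k, ∀ r' ∈ R p l, (p : ℤ) ∣ r - r' → k = l ∧ r = r')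
    (a : ℤ) (i : Fin PP.card) (k : κ) :
    colg PP R a i = some k ↔ ∃ r ∈ R (emb PP i) k, ((emb PP i : ℕ) : ℤ) ∣ a - r := by
  unfold colg
  constructor
  · intro h
    split_ifs at h with h1
    have h2 := Option.some.inj h
    have h3 := h1.choose_spec
    rw [h2] at h3
    exact h3
  · rintro ⟨r, hr, h⟩
    have h1 : ∃ k, ∃ r ∈ R (emb PP i) k, ((emb PP i : ℕ) : ℤ) ∣ a - r := ⟨k, r, hr, h⟩
    rw [dif_pos h1]
    congr 1
    obtain ⟨r', hr', h3⟩ := h1.choose_spec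
    refine (hinj (emb PP i) (emb_mem PP i) _ _ r' hr' r hr ?_).1
    have h4 := dvd_sub h h3
    have h5 : a - r - (a - r') = r' - r := by ring
    rwa [h5] at h4

/-- the density -/
noncomputable def gg (PP : Finset ℕ) (ρ : ℕ → ℕ) (κ : Type) (i : Fin PP.card) (_ : κ) : ℝ :=
  (ρ (emb PP i) : ℝ) / ((emb PP i : ℕ) : ℝ)

theorem event_count (hcg : CountGen) {PP : Finset ℕ} (hP : ∀ p ∈ PP, p.Prime)
    {R : ℕ → κ → Finset ℤ} {ρ : ℕ → ℕ} {d : ℕ} (hd : 1 ≤ d) (hρd : ∀ p ∈ PP, ρ p ≤ d)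
    (hcard : ∀ p ∈ PP, ∀ k, (R p k).card = ρ p)
    (hinj : ∀ p ∈ PP, ∀ k l, ∀ r ∈ R p k, ∀ r' ∈ R p l, (p : ℤ) ∣ r - r' → k = l ∧ r = r')
    (D : Col PP.card κ) (𝒜 : Finset ℤ) (N Err : ℝ) (hErr : 0 ≤ Err)
    (hcount : ∀ c : ℤ, |((𝒜.filter (fun x => ((∏ i ∈ supp D, emb PP i : ℕ) : ℤ) ∣ x - c)).card : ℝ) -
      N / ((∏ i ∈ supp D, emb PP i : ℕ) : ℝ)| ≤ Err) :
    |((𝒜.filter (fun a => ∀ i, D i ≠ none → colg PP R a i = D i)).card : ℝ) -
      N * nu (gg PP ρ κ) D| ≤ (d : ℝ) ^ (supp D).card * Err := by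
  set R' : Fin PP.card → Finset ℤ := fun i =>
    match D i with | none => ∅ | some k => R (emb PP i) k with hR'
  have hRk : ∀ i k, D i = some k → R' i = R (emb PP i) k := by
    intro i k h
    simp only [hR', h]
  have hfilt : 𝒜.filter (fun a => ∀ i, D i ≠ none → colg PP R a i = D i) =
      𝒜.filter (fun a => ∀ i ∈ supp D, ∃ r ∈ R' i, ((emb PP i : ℕ) : ℤ) ∣ a - r) := by
    apply Finset.filter_congr
    intro a _
    have key : ∀ i, D i ≠ none → (colg PP R a i = D i ↔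
        ∃ r ∈ R' i, ((emb PP i : ℕ) : ℤ) ∣ a - r) := by
      intro i hi
      obtain ⟨k, hk⟩ := Option.ne_none_iff_exists'.mp hi
      rw [hk, hRk i k hk]
      exact colg_eq hinj a i k
    constructor
    · intro h i hi
      have hi' := mem_supp.mp hi
      exact (key i hi').1 (h i hi')
    · intro h i hi
      exact (key i hi).2 (h i (mem_supp.mpr hi))
  have hcR : ∀ i ∈ supp D, (R' i).card = ρ (emb PP i) := by
    intro i hi
    obtain ⟨k, hk⟩ := Option.ne_none_iff_exists'.mp (mem_supp.mp hi)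
    rw [hRk i k hk, hcard _ (emb_mem PP i) k]
  have hnu : nu (gg PP ρ κ) D = ∏ i ∈ supp D, (((R' i).card : ℝ) / ((emb PP i : ℕ) : ℝ)) := by
    have h1 : nu (gg PP ρ κ) D = ∏ i ∈ supp D, ((ρ (emb PP i) : ℝ) / ((emb PP i : ℕ) : ℝ)) := by
      unfold nu supp
      rw [Finset.prod_filter]
      refine Finset.prod_congr rfl fun i _ => ?_
      cases h : D i with
      | none => simp [nug]
      | some k => simp [nug, gg]
    rw [h1]
    refine Finset.prod_congr rfl fun i hi => ?_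
    rw [hcR i hi]
  rw [hfilt, hnu]
  have h2 := hcg (supp D) (fun i => emb PP i) (fun i _ => hP _ (emb_mem PP i))
    (fun i _ j _ hij h => hij ((emb PP).injective h)) R' (by
      intro i hi r hr r' hr' hd'
      obtain ⟨k, hk⟩ := Option.ne_none_iff_exists'.mp (mem_supp.mp hi)
      rw [hRk i k hk] at hr hr'
      exact (hinj _ (emb_mem PP i) k k r hr r' hr' hd').2) 𝒜 N Err hcount
  have h4 : (∏ i ∈ supp D, ((R' i).card : ℝ)) * Err ≤ (d : ℝ) ^ (supp D).card * Err := by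
    apply mul_le_mul_of_nonneg_right _ hErr
    have h3 : ∏ i ∈ supp D, ((R' i).card : ℝ) ≤ ∏ i ∈ supp D, (d : ℝ) := by
      apply Finset.prod_le_prod
      · intro i _
        exact Nat.cast_nonneg _
      · intro i hi
        rw [hcR i hi]
        exact_mod_cast hρd _ (emb_mem PP i)
    rwa [Finset.prod_const] at h3
  refine le_trans (le_of_eq ?_) (h2.trans h4)
  congr!

end

end Pool.Agent.H378R2.PG
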